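import Pool.Agent.K7.H63.LN.Var
import Pool.Agent.K7.H63.MR.Val

/-!
Digits and boxes; lively blocks.
-/

set_option autoImplicit false

namespace Pool.Agent.K7.H63.LN

open Finset Real
open Pool.Agent.K7.H63.MR (dgb val val_lt digits_of_val floor_step)
open Pool.Agent.Y933.KD (ind)

lemma dgb_mem {b : ℕ} (hb : 2 ≤ b) (x : ℝ) (k : ℕ) : 0 ≤ dgb b x k ∧ dgb b x k < b := by
  have h : (0 : ℤ) < b := by exact_mod_cast (by omega : 0 < b)
  exact ⟨Int.emod_nonneg _ h.ne', Int.emod_lt_of_pos _ h⟩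

lemma floor_val {b : ℕ} (hb : 2 ≤ b) (x : ℝ) (k j : ℕ) :
    ⌊x * (b : ℝ) ^ (k + j)⌋ = (b : ℤ) ^ j * ⌊x * (b : ℝ) ^ k⌋ +
      val b (fun i => (dgb b x (k + 1 + i)).toNat) j := by
  induction j with
  | zero => simp [MR.val]
  | succ j ih =>
    have h1 : ⌊x * (b : ℝ) ^ (k + j + 1)⌋ / (b : ℤ) = ⌊x * (b : ℝ) ^ (k + j)⌋ :=
      (floor_step b x (k + j)).resolve_right (by omega)
    have h2 := Int.emod_add_mul_ediv ⌊x * (b : ℝ) ^ (k + j + 1)⌋ (b : ℤ)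
    rw [h1, ih] at h2
    have h3 := (dgb_mem hb x (k + 1 + j)).1
    rw [MR.val]
    push_cast
    rw [Int.toNat_of_nonneg h3]
    have h4 : dgb b x (k + 1 + j) = ⌊x * (b : ℝ) ^ (k + j + 1)⌋ % (b : ℤ) := by
      unfold dgb
      rw [show k + 1 + j = k + j + 1 by ring]
    rw [h4, show k + (j + 1) = k + j + 1 by ring, pow_succ (b : ℤ) j]
    linear_combination -h2

lemma val_congr {b : ℕ} {w w' : ℕ → ℕ} : ∀ {l : ℕ}, (∀ i < l, w i = w' i) → val b w l = val b w' l := by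
  intro l
  induction l with
  | zero => intro _; rfl
  | succ l ih =>
    intro h
    rw [MR.val, MR.val, ih (fun i hi => h i (by omega)), h l (by omega)]

lemma digits_iff {b : ℕ} (hb : 2 ≤ b) {w : ℕ → ℕ} {l : ℕ} (hw : ∀ i < l, w i < b) (x : ℝ) (k : ℕ) :
    (∀ i < l, dgb b x (k + 1 + i) = w i) ↔
      ((val b w l : ℕ) / ((b ^ l : ℕ) : ℝ) ≤ Int.fract (x * (b : ℝ) ^ k) ∧
        Int.fract (x * (b : ℝ) ^ k) < ((val b w l : ℕ) + 1) / ((b ^ l : ℕ) : ℝ)) := by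
  have hB : (0 : ℝ) < ((b ^ l : ℕ) : ℝ) := by
    have : 0 < b ^ l := by positivity
    exact_mod_cast this
  have hBz : (0 : ℤ) < ((b ^ l : ℕ) : ℤ) := by exact_mod_cast (by positivity : 0 < b ^ l)
  have hv := val_lt hw l le_rfl
  have hfr : Int.fract (x * (b : ℝ) ^ k) * ((b ^ l : ℕ) : ℝ) =
      x * (b : ℝ) ^ (k + l) - (((b ^ l : ℕ) : ℤ) * ⌊x * (b : ℝ) ^ k⌋ : ℤ) := by
    unfold Int.fract
    push_cast
    rw [pow_add]
    ring
  have h2 : ((val b w l : ℕ) / ((b ^ l : ℕ) : ℝ) ≤ Int.fract (x * (b : ℝ) ^ k) ∧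
        Int.fract (x * (b : ℝ) ^ k) < ((val b w l : ℕ) + 1) / ((b ^ l : ℕ) : ℝ)) ↔
      ⌊x * (b : ℝ) ^ (k + l)⌋ = ((b ^ l : ℕ) : ℤ) * ⌊x * (b : ℝ) ^ k⌋ + (val b w l : ℕ) := by
    rw [div_le_iff₀ hB, lt_div_iff₀ hB, hfr, Int.floor_eq_iff]
    push_cast
    constructor
    · rintro ⟨h1, h2⟩; constructor <;> linarith
    · rintro ⟨h1, h2⟩; constructor <;> linarith
  rw [h2]
  constructor
  · intro h
    rw [floor_val hb]
    push_cast
    congr 2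
    refine val_congr fun i hi => ?_
    rw [h i hi]
    exact Int.toNat_natCast _
  · intro h
    refine digits_of_val hb hw x k ?_
    rw [h, Int.add_comm, Int.add_mul_emod_self_left]
    exact Int.emod_eq_of_lt (Int.natCast_nonneg _) (by exact_mod_cast hv)

/-- the block `t` of `J` places is lively if the digits of `Q α` in the next two blocks are neither all `0`
nor all `b - 1` -/
def Lively (b Q J : ℕ) (α : ℝ) (t : ℕ) : Prop :=
  (∃ i, J * (t + 1) < i ∧ i ≤ J * (t + 3) ∧ dgb b (Q * α) i ≠ 0) ∧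
    ∃ i, J * (t + 1) < i ∧ i ≤ J * (t + 3) ∧ dgb b (Q * α) i ≠ b - 1

lemma far_of_lively {b : ℕ} (hb : 2 ≤ b) {Q J : ℕ} {α : ℝ} {t : ℕ} (h : Lively b Q J α t) (p : ℕ)
    (hp0 : J * t ≤ p) (hp : p ≤ J * (t + 1)) (P : ℤ) :
    1 / (b : ℝ) ^ (3 * J) ≤ |Q * ((b : ℝ) ^ p * α) - P| := by
  by_contra hcon
  push Not at hcon
  have hbR : (2 : ℝ) ≤ b := by exact_mod_cast hb
  have hb1 : (1 : ℝ) ≤ b := by linarith
  have hb0 : (0 : ℝ) < b := by linarith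
  have hbz : (2 : ℤ) ≤ b := by exact_mod_cast hb
  obtain ⟨⟨i, hi1, hi2, hi3⟩, i', hi'1, hi'2, hi'3⟩ := h
  set u : ℝ := Q * ((b : ℝ) ^ p * α) - P with hu
  have key : ∀ i : ℕ, J * (t + 1) < i → i ≤ J * (t + 3) → |u| * (b : ℝ) ^ (i - p) < 1 := by
    intro i h1 h2
    have h3 : i - p ≤ 3 * J := by
      have : J * (t + 3) = J * t + 3 * J := by ring
      omega
    calc |u| * (b : ℝ) ^ (i - p) ≤ |u| * (b : ℝ) ^ (3 * J) := by
          gcongr
      _ < 1 / (b : ℝ) ^ (3 * J) * (b : ℝ) ^ (3 * J) := by gcongr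
      _ = 1 := by field_simp
  have hfl : ∀ i : ℕ, J * (t + 1) < i → ∃ z : ℤ, (Q : ℝ) * α * (b : ℝ) ^ i = u * (b : ℝ) ^ (i - p) + ((b * z : ℤ) : ℝ) := by
    intro i h1
    obtain ⟨a, ha⟩ : ∃ a, i = p + (a + 1) := ⟨i - p - 1, by omega⟩
    refine ⟨P * b ^ a, ?_⟩
    rw [ha, Nat.add_sub_cancel_left, hu]
    push_cast
    rw [pow_add, pow_succ (b : ℝ) a]
    ring
  rcases le_or_gt 0 u with h0 | h0
  · apply hi3
    obtain ⟨z, hz⟩ := hfl i hi1
    have h1 := key i hi1 hi2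
    rw [abs_of_nonneg h0] at h1
    unfold dgb
    rw [hz, Int.floor_add_intCast]
    have h2 : ⌊u * (b : ℝ) ^ (i - p)⌋ = 0 := by
      rw [Int.floor_eq_zero_iff]
      exact ⟨by positivity, h1⟩
    rw [h2, zero_add]
    exact Int.mul_emod_right _ _
  · apply hi'3
    obtain ⟨z, hz⟩ := hfl i' hi'1
    have h1 := key i' hi'1 hi'2
    rw [abs_of_neg h0] at h1
    unfold dgb
    rw [hz, Int.floor_add_intCast]
    have h2 : ⌊u * (b : ℝ) ^ (i' - p)⌋ = -1 := by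
      rw [Int.floor_eq_iff]
      push_cast
      constructor
      · linarith
      · have : 0 < (b : ℝ) ^ (i' - p) := by positivity
        nlinarith
    rw [h2, Int.add_mul_emod_self_left]
    rw [show (-1 : ℤ) = ((b : ℤ) - 1) + b * (-1) by ring, Int.add_mul_emod_self_left]
    exact Int.emod_eq_of_lt (by omega) (by omega)

end Pool.Agent.K7.H63.LN
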