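import Pool.Agent.Y951.TU.Test
import Pool.Agent.Y933.KD.Unif

/-!
Equidistribution of finite families of points on boxes of the torus, from their exponential sums.
-/

set_option autoImplicit false

namespace Pool.Agent.K7.H63.LN

open Finset Real MeasureTheory
open Pool.Agent.Y933.KD (e e_zero e_add norm_e e_sum Leb hat_Leb continuous_e ind ind_nonneg ind_le_one
  measurable_ind)
open Pool.Agent.Y951.TU (hat test)
open scoped ENNReal

/-- the linear forms -/
noncomputable def lin (r : ℕ) : (Fin r → ℤ) →+ ((Fin r → ℝ) → ℝ) where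
  toFun l := fun x => ∑ j, l j * x j
  map_zero' := by funext x; simp
  map_add' l l' := by
    funext x
    simp only [Pi.add_apply]
    rw [← sum_add_distrib]
    refine sum_congr rfl fun j _ => ?_
    push_cast
    ring

lemma lin_apply {r : ℕ} (l : Fin r → ℤ) (x : Fin r → ℝ) : lin r l x = ∑ j, l j * x j := rfl

lemma measurable_lin {r : ℕ} (l : Fin r → ℤ) : Measurable (lin r l) := by
  have : lin r l = fun x : Fin r → ℝ => ∑ j, (l j : ℝ) * x j := rfl
  rw [this]
  fun_prop

/-- Lebesgue measure on the unit cube -/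
noncomputable def Cube (r : ℕ) : Measure (Fin r → ℝ) := Measure.pi fun _ => Leb

instance (r : ℕ) : IsProbabilityMeasure (Cube r) := by unfold Cube; infer_instance

lemma hat_Cube {r : ℕ} (l : Fin r → ℤ) (hl : l ≠ 0) : hat (lin r) (Cube r) l = 0 := by
  obtain ⟨j0, hj0⟩ : ∃ j, l j ≠ 0 := by
    by_contra hcon
    push Not at hcon
    exact hl (funext hcon)
  unfold hat Cube
  have h1 : ∀ x : Fin r → ℝ, e (lin r l x) = ∏ j, e (l j * x j) := fun x => by
    rw [lin_apply, e_sum]
  simp only [h1]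
  rw [integral_fintype_prod_eq_prod (fun j (t : ℝ) => e (l j * t))]
  exact prod_eq_zero (mem_univ j0) (hat_Leb _ hj0)

/-- the uniform probability measure on the family `x m`, `m ∈ s` -/
noncomputable def unif {ι : Type*} {r : ℕ} (s : Finset ι) (x : ι → Fin r → ℝ) :
    Measure (Fin r → ℝ) := (s.card : ℝ≥0∞)⁻¹ • ∑ m ∈ s, Measure.dirac (x m)

lemma unif_prob {ι : Type*} {r : ℕ} {s : Finset ι} (hs : s.Nonempty) (x : ι → Fin r → ℝ) :
    IsProbabilityMeasure (unif s x) := by
  refine ⟨?_⟩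
  unfold unif
  rw [Measure.smul_apply, Measure.finsetSum_apply]
  simp only [measure_univ, sum_const, smul_eq_mul, nsmul_eq_mul, mul_one]
  refine ENNReal.inv_mul_cancel ?_ (ENNReal.natCast_ne_top _)
  exact_mod_cast (Finset.card_pos.2 hs).ne'

lemma integral_unif {ι : Type*} {r : ℕ} {E : Type*} [NormedAddCommGroup E] [NormedSpace ℝ E]
    [CompleteSpace E] (s : Finset ι) (x : ι → Fin r → ℝ) (f : (Fin r → ℝ) → E) :
    ∫ t, f t ∂(unif s x) = (1 / (s.card : ℝ)) • ∑ m ∈ s, f (x m) := by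
  unfold unif
  rw [integral_smul_measure, integral_finsetSum_measure]
  · simp only [integral_dirac, ENNReal.toReal_inv, ENNReal.toReal_natCast]
    rw [one_div]
  · intro m _
    exact integrable_dirac (by simp)

lemma integral_ind (u v : ℝ) (h0 : 0 ≤ u) (huv : u ≤ v) (h1 : v ≤ 1) : ∫ t, ind u v t ∂Leb = v - u := by
  unfold Leb
  have e1 : ∀ t ∈ Set.Ico (0 : ℝ) 1, ind u v t = (Set.Ico u v).indicator (fun _ => (1 : ℝ)) t := by
    intro t ht
    unfold ind
    rw [Int.fract_eq_self.2 ht]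
    by_cases h : t ∈ Set.Ico u v
    · rw [Set.indicator_of_mem h, if_pos ⟨h.1, h.2⟩]
    · rw [Set.indicator_of_notMem h, if_neg (fun h2 => h ⟨h2.1, h2.2⟩)]
  rw [setIntegral_congr_fun measurableSet_Ico e1, setIntegral_indicator measurableSet_Ico]
  have e2 : Set.Ico (0 : ℝ) 1 ∩ Set.Ico u v = Set.Ico u v := by
    apply Set.inter_eq_right.2
    intro t ht
    exact ⟨h0.trans ht.1, ht.2.trans_le h1⟩
  rw [e2]
  simp [huv]

theorem equi {ι : Type*} {k K : ℕ} (hK : 0 < K) {s : Finset ι} (hs : s.Nonempty) (x : ι → Fin k → ℝ)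
    (Δ : ℝ) (hΔ0 : 0 ≤ Δ) (hΔ : ∀ h : Fin k → ℤ, h ≠ 0 → (∀ i, |h i| ≤ (K : ℤ) ^ 3) →
      ‖∑ m ∈ s, e (∑ i, h i * x m i)‖ ≤ Δ * s.card)
    (u v : Fin k → ℝ) (hu : ∀ i, 0 ≤ u i) (huv : ∀ i, u i ≤ v i) (hv : ∀ i, v i ≤ 1) :
    |(1 / (s.card : ℝ)) * ∑ m ∈ s, ∏ i, ind (u i) (v i) (x m i) - ∏ i, (v i - u i)| ≤
      (2 * (K : ℝ) ^ 3 + 1) ^ k * Δ + k * (12 / K + 5 * Δ) := by
  classical
  have := unif_prob hs x
  have hc : (0 : ℝ) < s.card := by exact_mod_cast Finset.card_pos.2 hs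
  have hsing : ∀ h : Fin k → ℤ, ∑ i, h i • (Pi.single i (1 : ℤ) : Fin k → ℤ) = h := by
    intro h
    funext j
    rw [Finset.sum_apply]
    simp [Pi.single_apply]
  have hlin : ∀ (i : Fin k) (t : Fin k → ℝ), lin k (Pi.single i (1 : ℤ)) t = t i := by
    intro i t
    rw [lin_apply]
    simp [Pi.single_apply]
  have key := test hK (φ := lin k) (fun l => measurable_lin l) (unif s x) (Cube k)
    (fun l hl => hat_Cube l hl) (fun i => Pi.single i (1 : ℤ)) (by
      intro i h hh h0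
      have := congrFun h0 i
      simp at this
      exact hh this) Δ (by
      intro h hh hne
      rw [hsing] at hne ⊢
      unfold hat
      rw [integral_unif]
      have e1 : ∀ m ∈ s, e (lin k h (x m)) = e (∑ i, h i * x m i) := fun m _ => by rw [lin_apply]
      rw [sum_congr rfl e1, norm_smul, Real.norm_of_nonneg (by positivity)]
      have h1 := hΔ h hne hh
      calc 1 / (s.card : ℝ) * ‖∑ m ∈ s, e (∑ i, h i * x m i)‖ ≤ 1 / (s.card : ℝ) * (Δ * s.card) := by
            gcongr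
        _ = Δ := by field_simp) hΔ0 u v hu hv
  simp only [hlin] at key
  rw [integral_unif, smul_eq_mul] at key
  have e2 : ∫ t, ∏ i, ind (u i) (v i) (t i) ∂(Cube k) = ∏ i, (v i - u i) := by
    unfold Cube
    rw [integral_fintype_prod_eq_prod (fun i (t : ℝ) => ind (u i) (v i) t)]
    exact prod_congr rfl fun i _ => integral_ind _ _ (hu i) (huv i) (hv i)
  rwa [e2] at key

end Pool.Agent.K7.H63.LN
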