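import Pool.Agent.K7.H63.LN.Main

/-!
The number of the places in the lively blocks, and the final form of the theorem for numbers with many
changes of digits.
-/

set_option autoImplicit false

namespace Pool.Agent.K7.H63.LN

open Finset Real
open Pool.Agent.K7.H63.MR (dgb chg)

lemma chg_le {b : ℕ} (Q J : ℕ) (hJ : 1 ≤ J) (α : ℝ) (N : ℕ) :
    chg b (Q * α) N ≤ (Pl b Q J α N).card + J := by
  classical
  unfold chg
  have h1 : (Icc 1 N).filter (fun k => dgb b (Q * α) k ≠ dgb b (Q * α) (k + 1)) ⊆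
      ((Icc (J + 1) N).filter (fun k => dgb b (Q * α) k ≠ dgb b (Q * α) (k + 1))) ∪ Icc 1 J := by
    intro k hk
    rw [mem_filter, mem_Icc] at hk
    rw [mem_union, mem_filter, mem_Icc, mem_Icc]
    by_cases h : k ≤ J
    · exact Or.inr ⟨hk.1.1, h⟩
    · exact Or.inl ⟨⟨by omega, hk.1.2⟩, hk.2⟩
  refine (card_le_card h1).trans ((card_union_le _ _).trans ?_)
  rw [Nat.card_Icc, Nat.add_sub_cancel]
  refine Nat.add_le_add_right ?_ _
  refine card_le_card_of_injOn (fun k => k - 1 - J) ?_ ?_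
  · intro k hk
    rw [mem_coe, mem_filter, mem_Icc] at hk
    obtain ⟨⟨hk1, hk2⟩, hk3⟩ := hk
    simp only [mem_coe]
    unfold Pl
    rw [mem_filter, mem_range]
    refine ⟨by omega, ?_⟩
    obtain ⟨a, ha⟩ : ∃ a, k = J + 1 + a := ⟨k - J - 1, by omega⟩
    have e1 : k - 1 - J = a := by omega
    rw [e1]
    have h2 := Nat.div_add_mod a J
    have h3 := Nat.mod_lt a (show 0 < J by omega)
    set t := a / J with ht
    have e2 : J * (t + 1) = J * t + J := by ring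
    have e3 : J * (t + 3) = J * t + 3 * J := by ring
    -- two neighbouring digits which are different
    have key : ∀ v : ℤ, ∃ i, J * (t + 1) < i ∧ i ≤ J * (t + 3) ∧ dgb b (Q * α) i ≠ v := by
      intro v
      by_cases h : dgb b (Q * α) k = v
      · refine ⟨k + 1, by omega, by omega, ?_⟩
        intro h4
        exact hk3 (h.trans h4.symm)
      · exact ⟨k, by omega, by omega, h⟩
    exact ⟨key 0, key (b - 1)⟩
  · intro k hk k' hk' h
    rw [mem_coe, mem_filter, mem_Icc] at hk hk'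
    simp only at h
    omega

open Classical in
theorem final {b : ℕ} (hb : 2 ≤ b) {ι : Type} {R : ℕ} (s : ℕ → Finset ι) (u : ι → Fin R → ℤ)
    (hs : ∃ M₁ : ℕ, ∀ M, M₁ ≤ M → (s M).Nonempty) (hUW : UW s u) (l : ℕ) (α : ℝ) (F : ℕ → ℝ)
    (hF : Filter.Tendsto F Filter.atTop Filter.atTop)
    (hchg : ∀ Q : ℕ, 1 ≤ Q → ∃ c : ℝ, 0 < c ∧ ∀ᶠ n : ℕ in Filter.atTop, c * F n ≤ (chg b (Q * α) n : ℝ))
    (ε : ℝ) (hε : 0 < ε) :
    ∃ Q : ℕ, 1 ≤ Q ∧ ∃ c : ℝ, 0 < c ∧ ∃ J₀ : ℕ, ∀ J : ℕ, J₀ ≤ J → ∃ M₀ N₀ : ℕ, ∀ M N : ℕ, M₀ ≤ M → N₀ ≤ N →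
      ∀ y : Fin R → ℝ, c * F N ≤ (Pl b Q J α N).card ∧
      (((s M).filter (fun m => ∃ D : Fin R → Fin l → Fin b,
        ε * (Pl b Q J α N).card < |(occ b D (Pl b Q J α N) (fun j => u m j * α + y j) : ℝ) -
          (Pl b Q J α N).card / ((b : ℝ) ^ l) ^ R|)).card : ℝ) ≤ ε * (s M).card := by
  obtain ⟨Q, hQ, J₀, H⟩ := core hb s u hs hUW l (ε / 2) (by positivity)
  obtain ⟨c, hc, hcQ⟩ := hchg Q hQ
  refine ⟨Q, hQ, c / 2, by positivity, max J₀ 1, fun J hJ => ?_⟩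
  have hJ1 : 1 ≤ J := (le_max_right _ _).trans hJ
  obtain ⟨M₀, hM₀⟩ := H J ((le_max_left _ _).trans hJ)
  have h1 := hF.eventually_ge_atTop (2 / c * (J + 2 * J / ε))
  obtain ⟨N₀, hN₀⟩ := Filter.eventually_atTop.1 (hcQ.and h1)
  refine ⟨M₀, N₀, fun M N hM hN y => ?_⟩
  obtain ⟨h2, h3⟩ := hN₀ N hN
  have h4 : (chg b (Q * α) N : ℝ) ≤ (Pl b Q J α N).card + J := by exact_mod_cast chg_le Q J hJ1 α N
  have h5 : J + 2 * J / ε ≤ c / 2 * F N := by
    have e1 : c / 2 * (2 / c * (J + 2 * J / ε)) = J + 2 * J / ε := by field_simp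
    rw [← e1]
    gcongr
  have hJR : (0 : ℝ) ≤ J := Nat.cast_nonneg J
  have h6 : (0 : ℝ) ≤ 2 * J / ε := by positivity
  have h7 : 2 * J / ε ≤ (Pl b Q J α N).card := by linarith
  refine ⟨by linarith, ?_⟩
  have h8 : (J : ℝ) ≤ ε / 2 * (Pl b Q J α N).card := by
    rw [div_le_iff₀ hε] at h7
    linarith
  have h9 := hM₀ M hM α y N
  have h10 : ε / 2 * (s M).card ≤ ε * (s M).card := by
    have : (0 : ℝ) ≤ (s M).card := Nat.cast_nonneg _
    nlinarith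
  refine le_trans ?_ (h9.trans h10)
  rw [Nat.cast_le]
  refine card_le_card fun m hm => ?_
  rw [mem_filter] at hm ⊢
  obtain ⟨hm1, D, hD⟩ := hm
  exact ⟨hm1, D, by linarith⟩

end Pool.Agent.K7.H63.LN
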