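import Pool.Agent.K7.H63.LN.Dig

/-!
Digit matrices of multiples: equidistribution along the lively blocks.
-/

set_option autoImplicit false

namespace Pool.Agent.K7.H63.LN

open Finset Real
open Pool.Agent.K7.H63.MR (dgb val_lt)
open Pool.Agent.Y933.KD (e ind)

/-- uniform smallness of the exponential sums, off the resonances -/
def UW {ι : Type} {R : ℕ} (s : ℕ → Finset ι) (u : ι → Fin R → ℤ) : Prop :=
  ∀ (U : ℕ) (Δ : ℝ), 0 < Δ → ∃ W : ℕ, ∀ c : ℝ, 0 < c → ∃ M₀ : ℕ, ∀ M : ℕ, M₀ ≤ M → ∀ θ θ' : ℝ,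
    (∀ H H' : ℤ, (H ≠ 0 ∨ H' ≠ 0) → |H| ≤ W → |H'| ≤ W → ∀ P : ℤ, c ≤ |H * θ + H' * θ' - P|) →
    ∀ h h' : Fin R → ℤ, (h ≠ 0 ∨ h' ≠ 0) → (∀ j, |h j| ≤ U) → (∀ j, |h' j| ≤ U) →
    ‖∑ m ∈ s M, e (∑ j, (h j * θ + h' j * θ') * u m j)‖ ≤ Δ * (s M).card

open Classical in
/-- the places in the lively blocks -/
noncomputable def Pl (b Q J : ℕ) (α : ℝ) (N : ℕ) : Finset ℕ := (range N).filter (fun p => Lively b Q J α (p / J))

/-- the number of the places `p ∈ S` such that the matrix of the digits at the places `p + 1, …, p + l` is `D` -/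
noncomputable def occ {R l : ℕ} (b : ℕ) (D : Fin R → Fin l → Fin b) (S : Finset ℕ) (x : Fin R → ℝ) : ℕ :=
  (S.filter (fun p => ∀ (j : Fin R) (i : Fin l), dgb b (x j) (p + 1 + i) = (D j i : ℕ))).card

/-- the digits of a row -/
def row {R l b : ℕ} (D : Fin R → Fin l → Fin b) (j : Fin R) (i : ℕ) : ℕ := if h : i < l then (D j ⟨i, h⟩ : ℕ) else 0

lemma row_lt {R l b : ℕ} (D : Fin R → Fin l → Fin b) (j : Fin R) : ∀ i < l, row D j i < b := by
  intro i hi
  unfold row
  rw [dif_pos hi]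
  exact (D j ⟨i, hi⟩).2

open Classical in
lemma box_eq {R l b : ℕ} (hb : 2 ≤ b) (D : Fin R → Fin l → Fin b) (x : Fin R → ℝ) (p : ℕ) :
    box (fun j => (MR.val b (row D j) l : ℕ) / ((b ^ l : ℕ) : ℝ))
      (fun j => ((MR.val b (row D j) l : ℕ) + 1) / ((b ^ l : ℕ) : ℝ)) (fun j => x j * (b : ℝ) ^ p) =
    if (∀ (j : Fin R) (i : Fin l), dgb b (x j) (p + 1 + i) = (D j i : ℕ)) then 1 else 0 := by
  have h1 : ∀ j, (∀ i : Fin l, dgb b (x j) (p + 1 + i) = (D j i : ℕ)) ↔
      ((MR.val b (row D j) l : ℕ) / ((b ^ l : ℕ) : ℝ) ≤ Int.fract (x j * (b : ℝ) ^ p) ∧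
        Int.fract (x j * (b : ℝ) ^ p) < ((MR.val b (row D j) l : ℕ) + 1) / ((b ^ l : ℕ) : ℝ)) := by
    intro j
    rw [← digits_iff hb (row_lt D j)]
    constructor
    · intro h i hi
      have := h ⟨i, hi⟩
      unfold row
      rw [dif_pos hi]
      exact this
    · intro h i
      have := h i i.2
      unfold row at this
      rw [dif_pos i.2] at this
      exact this
  unfold box ind
  by_cases h : ∀ (j : Fin R) (i : Fin l), dgb b (x j) (p + 1 + i) = (D j i : ℕ)
  · rw [if_pos h]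
    refine prod_eq_one fun j _ => ?_
    rw [if_pos ((h1 j).1 (h j))]
  · rw [if_neg h]
    obtain ⟨j, hj⟩ := not_forall.1 h
    refine prod_eq_zero (mem_univ j) ?_
    rw [if_neg (fun h2 => hj ((h1 j).2 h2))]

open Classical in
lemma sum_blocks (L : ℕ → Prop) (J : ℕ) (hJ : 1 ≤ J) (f : ℕ → ℝ) (T : ℕ) :
    ∑ p ∈ (range (J * T)).filter (fun p => L (p / J)), f p =
      ∑ t ∈ (range T).filter L, ∑ r ∈ range J, f (J * t + r) := by
  rw [sum_filter, sum_filter]
  induction T with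
  | zero => simp
  | succ T ih =>
    rw [Nat.mul_succ, sum_range_add, sum_range_succ, ih]
    congr 1
    have h1 : ∀ r ∈ range J, (if L ((J * T + r) / J) then f (J * T + r) else 0) =
        if L T then f (J * T + r) else 0 := by
      intro r hr
      rw [mem_range] at hr
      have : (J * T + r) / J = T := by
        rw [Nat.mul_add_div (by omega), Nat.div_eq_of_lt hr, add_zero]
      rw [this]
    rw [sum_congr rfl h1]
    split_ifs with h
    · rfl
    · exact sum_const_zero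

lemma Pl_split (b Q J : ℕ) (α : ℝ) (N : ℕ) (hJ : 1 ≤ J) :
    ∃ E : Finset ℕ, Disjoint (Pl b Q J α (J * (N / J))) E ∧ Pl b Q J α N = Pl b Q J α (J * (N / J)) ∪ E ∧
      E.card ≤ J := by
  classical
  have hN : J * (N / J) ≤ N := Nat.mul_div_le N J
  have hN2 : N ≤ J * (N / J) + J := by
    have := Nat.div_add_mod N J
    have := Nat.mod_lt N (show 0 < J by omega)
    omega
  refine ⟨(Ico (J * (N / J)) N).filter (fun p => Lively b Q J α (p / J)), ?_, ?_, ?_⟩
  · unfold Pl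
    rw [disjoint_left]
    intro p hp hp2
    rw [mem_filter, mem_range] at hp
    rw [mem_filter, mem_Ico] at hp2
    omega
  · unfold Pl
    ext p
    rw [mem_union, mem_filter, mem_filter, mem_filter, mem_range, mem_range, mem_Ico]
    constructor
    · rintro ⟨h1, h2⟩
      by_cases h : p < J * (N / J)
      · exact Or.inl ⟨h, h2⟩
      · exact Or.inr ⟨⟨by omega, h1⟩, h2⟩
    · rintro (⟨h1, h2⟩ | ⟨⟨h1, h2⟩, h3⟩)
      · exact ⟨by omega, h2⟩
      · exact ⟨h2, h3⟩
  · refine (card_filter_le _ _).trans ?_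
    rw [Nat.card_Ico]
    omega

lemma occ_union {R l : ℕ} (b : ℕ) (D : Fin R → Fin l → Fin b) (S E : Finset ℕ) (h : Disjoint S E) (x : Fin R → ℝ) :
    occ b D (S ∪ E) x = occ b D S x + occ b D E x := by
  unfold occ
  rw [filter_union, card_union_of_disjoint (disjoint_filter_filter h)]

lemma occ_le {R l : ℕ} (b : ℕ) (D : Fin R → Fin l → Fin b) (S : Finset ℕ) (x : Fin R → ℝ) :
    occ b D S x ≤ S.card := card_filter_le _ _

open Classical in
theorem core {b : ℕ} (hb : 2 ≤ b) {ι : Type} {R : ℕ} (s : ℕ → Finset ι) (u : ι → Fin R → ℤ)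
    (hs : ∃ M₁ : ℕ, ∀ M, M₁ ≤ M → (s M).Nonempty) (hUW : UW s u) (l : ℕ) (ε : ℝ) (hε : 0 < ε) :
    ∃ Q : ℕ, 1 ≤ Q ∧ ∃ J₀ : ℕ, ∀ J : ℕ, J₀ ≤ J → ∃ M₀ : ℕ, ∀ M : ℕ, M₀ ≤ M → ∀ (α : ℝ) (y : Fin R → ℝ) (N : ℕ),
      (((s M).filter (fun m => ∃ D : Fin R → Fin l → Fin b,
        ε * (Pl b Q J α N).card + J < |(occ b D (Pl b Q J α N) (fun j => u m j * α + y j) : ℝ) -
          (Pl b Q J α N).card / ((b : ℝ) ^ l) ^ R|)).card : ℝ) ≤ ε * (s M).card := by
  have hb0 : 0 < b := by omega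
  have hbR : (2 : ℝ) ≤ b := by exact_mod_cast hb
  obtain ⟨M₁, hs⟩ := hs
  set ND : ℕ := Fintype.card (Fin R → Fin l → Fin b) with hND
  have hND1 : 1 ≤ ND := by
    have : Nonempty (Fin R → Fin l → Fin b) := ⟨fun _ _ => ⟨0, hb0⟩⟩
    exact Fintype.card_pos
  have hNDR : (1 : ℝ) ≤ ND := by exact_mod_cast hND1
  obtain ⟨κ, hκd⟩ : ∃ κ : ℝ, κ = ε ^ 2 / ND := ⟨_, rfl⟩
  have hκ : 0 < κ := by rw [hκd]; positivity
  -- the degree
  obtain ⟨K, hK1⟩ := exists_nat_ge (144 * ((R + R : ℕ) : ℝ) / κ ^ 2 + 1)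
  have hK0 : (0 : ℝ) ≤ 144 * ((R + R : ℕ) : ℝ) / κ ^ 2 := by positivity
  have hKR : (1 : ℝ) ≤ K := by linarith
  have hK : 0 < K := by exact_mod_cast (by linarith : (0 : ℝ) < K)
  have hKb : 36 * ((R + R : ℕ) : ℝ) / K ≤ κ ^ 2 / 4 := by
    rw [div_le_iff₀ (by linarith)]
    have h1 : 144 * ((R + R : ℕ) : ℝ) / κ ^ 2 ≤ K := by linarith
    rw [div_le_iff₀ (by positivity)] at h1
    linarith
  obtain ⟨A, hA⟩ : ∃ A : ℝ, A = (2 * (K : ℝ) ^ 3 + 1) ^ (R + R) + 5 * ((R + R : ℕ) : ℝ) := ⟨_, rfl⟩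
  have hA0 : 0 < A := by rw [hA]; positivity
  obtain ⟨Δ, hΔ⟩ : ∃ Δ : ℝ, Δ = κ ^ 2 / (12 * A) := ⟨_, rfl⟩
  have hΔ0 : 0 < Δ := by rw [hΔ]; positivity
  have herr : 3 * err R K Δ ≤ κ ^ 2 / 2 := by
    have e1 : 3 * err R K Δ = 3 * A * Δ + 36 * ((R + R : ℕ) : ℝ) / K := by
      unfold err
      rw [hA]
      ring
    have e2 : 3 * A * Δ = κ ^ 2 / 4 := by
      rw [hΔ]
      field_simp
      ring
    rw [e1, e2]
    linarith
  obtain ⟨W, hW⟩ := hUW (K ^ 3) Δ hΔ0
  obtain ⟨G, hG⟩ := exists_nat_ge (4 * ((2 * W + 1 : ℕ) : ℝ) ^ 2 / κ ^ 2 + 1)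
  have hG0 : (0 : ℝ) ≤ 4 * ((2 * W + 1 : ℕ) : ℝ) ^ 2 / κ ^ 2 := by positivity
  have hG1 : 1 ≤ G := by exact_mod_cast (by linarith : (1 : ℝ) ≤ G)
  have hsmall : ∀ J : ℕ, G ≤ J → ((2 * W + 1 : ℕ) : ℝ) ^ 2 ≤ κ ^ 2 / 4 * J := by
    intro J hJ
    have h1 : 4 * ((2 * W + 1 : ℕ) : ℝ) ^ 2 / κ ^ 2 ≤ J := by
      have : (G : ℝ) ≤ J := by exact_mod_cast hJ
      linarith
    rw [div_le_iff₀ (by positivity)] at h1
    linarith
  -- the number `Q`
  obtain ⟨Q, hQd⟩ : ∃ Q : ℕ, Q = ∏ H ∈ Icc 1 W, ∏ g ∈ Icc 1 G, H * (b ^ g - 1) := ⟨_, rfl⟩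
  have hfac : ∀ H ∈ Icc 1 W, ∀ g ∈ Icc 1 G, 0 < H * (b ^ g - 1) := by
    intro H hH g hg
    rw [mem_Icc] at hH hg
    have h1 : 1 < b ^ g := Nat.one_lt_pow (by omega) (by omega)
    exact Nat.mul_pos (by omega) (by omega)
  have hQ1 : 1 ≤ Q := by
    rw [hQd]
    exact Nat.succ_le_of_lt (prod_pos fun H hH => prod_pos fun g hg => hfac H hH g hg)
  have hQ : ∀ H g : ℕ, 1 ≤ H → H ≤ W → 1 ≤ g → g ≤ G → H * (b ^ g - 1) ∣ Q := by
    intro H g h1 h2 h3 h4
    rw [hQd]
    exact (dvd_prod_of_mem (fun g => H * (b ^ g - 1)) (mem_Icc.2 ⟨h3, h4⟩)).trans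
      (dvd_prod_of_mem (fun H => ∏ g ∈ Icc 1 G, H * (b ^ g - 1)) (mem_Icc.2 ⟨h1, h2⟩))
  have hQR : (1 : ℝ) ≤ Q := by exact_mod_cast hQ1
  refine ⟨Q, hQ1, G, fun J hJ => ?_⟩
  have hJ1 : 1 ≤ J := hG1.trans hJ
  have hJR : (1 : ℝ) ≤ J := by exact_mod_cast hJ1
  obtain ⟨η, hηd⟩ : ∃ η : ℝ, η = 1 / (b : ℝ) ^ (3 * J) := ⟨_, rfl⟩
  have hη : 0 < η := by rw [hηd]; positivity
  obtain ⟨M₂, hM₂⟩ := hW (η / (2 * Q)) (by positivity)
  refine ⟨max M₁ M₂, fun M hM α y N => ?_⟩
  have hsM : (s M).Nonempty := hs M ((le_max_left _ _).trans hM)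
  have hcM : (0 : ℝ) < (s M).card := by exact_mod_cast Finset.card_pos.2 hsM
  have hUM := hM₂ M ((le_max_right _ _).trans hM)
  set T := N / J with hT
  set Lv := (range T).filter (Lively b Q J α) with hLv
  set PT := Pl b Q J α (J * T) with hPT
  have hPTcard : (PT.card : ℝ) = J * Lv.card := by
    have h1 := sum_blocks (Lively b Q J α) J hJ1 (fun _ => (1 : ℝ)) T
    simp only [sum_const, nsmul_eq_mul, mul_one, card_range] at h1
    rw [hPT]
    unfold Pl
    rw [h1, hLv]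
    ring
  -- the mean deviation for a given matrix
  obtain ⟨V, hV⟩ : ∃ V : ℝ, V = 1 / ((b : ℝ) ^ l) ^ R := ⟨_, rfl⟩
  have hV0 : 0 < V := by rw [hV]; positivity
  have hV1 : V ≤ 1 := by
    rw [hV, div_le_one (by positivity)]
    exact one_le_pow₀ (one_le_pow₀ (by linarith))
  have hdev : ∀ D : Fin R → Fin l → Fin b,
      ∑ m ∈ s M, |(occ b D PT (fun j => u m j * α + y j) : ℝ) - V * PT.card| ≤ κ * PT.card * (s M).card := by
    intro D
    set a : Fin R → ℝ := fun j => (MR.val b (row D j) l : ℕ) / ((b ^ l : ℕ) : ℝ) with ha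
    set c : Fin R → ℝ := fun j => ((MR.val b (row D j) l : ℕ) + 1) / ((b ^ l : ℕ) : ℝ) with hc
    have hBpos : (0 : ℝ) < ((b ^ l : ℕ) : ℝ) := by exact_mod_cast (by positivity : 0 < b ^ l)
    have ha0 : ∀ j, 0 ≤ a j := fun j => by rw [ha]; positivity
    have hac : ∀ j, a j ≤ c j := fun j => by
      rw [ha, hc]
      exact div_le_div_of_nonneg_right (by linarith) hBpos.le
    have hc1 : ∀ j, c j ≤ 1 := fun j => by
      rw [hc]
      simp only
      rw [div_le_one hBpos]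
      have h1 := val_lt (row_lt D j) l le_rfl
      exact_mod_cast h1
    have hvol : ∏ j, (c j - a j) = V := by
      have h1 : ∀ j, c j - a j = 1 / (b : ℝ) ^ l := by
        intro j
        rw [ha, hc]
        simp only
        rw [← sub_div]
        push_cast
        congr 1
        ring
      rw [prod_congr rfl (fun j _ => h1 j), prod_const, card_univ, Fintype.card_fin, hV, one_div_pow]
    -- one block
    have hblk : ∀ t ∈ Lv, ∑ m ∈ s M, |∑ r ∈ range J,
        (box a c (fun j => u m j * ((b : ℝ) ^ (J * t + r) * α) + (b : ℝ) ^ (J * t + r) * y j) - V)| ≤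
          κ * J * (s M).card := by
      intro t ht
      rw [hLv, mem_filter, mem_range] at ht
      have hlv := ht.2
      have hfar : ∀ r < J, ∀ P : ℤ, η ≤ |Q * ((b : ℝ) ^ (J * t + r) * α) - P| := by
        intro r hr P
        rw [hηd]
        refine far_of_lively hb hlv (J * t + r) (by omega) ?_ P
        have : J * (t + 1) = J * t + J := by ring
        omega
      have hstep : ∀ r, (b : ℝ) ^ (J * t + (r + 1)) * α = b * ((b : ℝ) ^ (J * t + r) * α) := by
        intro r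
        rw [← Nat.add_assoc, pow_succ]
        ring
      have hcb := card_bad hb Q J G W hG1 η (fun r => (b : ℝ) ^ (J * t + r) * α) hstep hfar hQ1 hQ
      rw [← hvol]
      refine block hK hsM u J (fun r => (b : ℝ) ^ (J * t + r) * α) (fun r j => (b : ℝ) ^ (J * t + r) * y j) Δ
        hΔ0.le (fun p => ∃ H H' : ℤ, (H ≠ 0 ∨ H' ≠ 0) ∧ |H| ≤ W ∧ |H'| ≤ W ∧
          ∃ P : ℤ, |H * ((b : ℝ) ^ (J * t + p.1) * α) + H' * ((b : ℝ) ^ (J * t + p.2) * α) - P| < η / (2 * Q))
        ?_ κ hκ.le ?_ a c ha0 hac hc1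
      · intro r _ r' _ hnb h h' hne hh hh'
        refine hUM _ _ ?_ h h' hne (fun j => ?_) (fun j => ?_)
        · intro H H' hHne hH hH' P
          by_contra hcon
          push Not at hcon
          exact hnb ⟨H, H', hHne, hH, hH', P, hcon⟩
        · have := hh j
          push_cast
          exact this
        · have := hh' j
          push_cast
          exact this
      · have h1 : (((range J ×ˢ range J).filter (fun p => ∃ H H' : ℤ, (H ≠ 0 ∨ H' ≠ 0) ∧ |H| ≤ W ∧ |H'| ≤ W ∧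
            ∃ P : ℤ, |H * ((b : ℝ) ^ (J * t + p.1) * α) + H' * ((b : ℝ) ^ (J * t + p.2) * α) - P| <
              η / (2 * Q))).card : ℝ) ≤ κ ^ 2 / 2 * (J : ℝ) ^ 2 := by
          have h2 : (((2 * W + 1) ^ 2 * (J * (J / (G + 1) + 1)) : ℕ) : ℝ) ≤
              ((2 * W + 1 : ℕ) : ℝ) ^ 2 * (J * (J / (G + 1) + 1)) := by
            push_cast
            gcongr
            exact_mod_cast Nat.cast_div_le (m := J) (n := G + 1)
          refine (le_trans (by exact_mod_cast hcb) h2).trans ?_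
          have h3 := hsmall J hJ
          have h4 := hsmall G le_rfl
          have h5 : ((2 * W + 1 : ℕ) : ℝ) ^ 2 * (J / (G + 1)) ≤ κ ^ 2 / 4 * J := by
            rw [mul_div_assoc', div_le_iff₀ (by positivity)]
            have hGR : (0 : ℝ) ≤ G := Nat.cast_nonneg _
            nlinarith [sq_nonneg κ]
          nlinarith
        nlinarith
    -- all the blocks
    have hsumm : ∀ m, (occ b D PT (fun j => u m j * α + y j) : ℝ) - V * PT.card =
        ∑ t ∈ Lv, ∑ r ∈ range J,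
          (box a c (fun j => u m j * ((b : ℝ) ^ (J * t + r) * α) + (b : ℝ) ^ (J * t + r) * y j) - V) := by
      intro m
      have h1 := sum_blocks (Lively b Q J α) J hJ1
        (fun p => box a c (fun j => u m j * ((b : ℝ) ^ p * α) + (b : ℝ) ^ p * y j) - V) T
      rw [hLv, ← h1, sum_sub_distrib, sum_const, nsmul_eq_mul, mul_comm _ V]
      have h2 : ∀ p, box a c (fun j => u m j * ((b : ℝ) ^ p * α) + (b : ℝ) ^ p * y j) =
          if (∀ (j : Fin R) (i : Fin l), dgb b (u m j * α + y j) (p + 1 + i) = (D j i : ℕ)) then 1 else 0 := by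
        intro p
        rw [← box_eq hb D (fun j => u m j * α + y j) p]
        congr 1
        funext j
        ring
      congr 1
      rw [sum_congr rfl (fun p _ => h2 p), sum_boole]
      rfl
    calc ∑ m ∈ s M, |(occ b D PT (fun j => u m j * α + y j) : ℝ) - V * PT.card|
        ≤ ∑ m ∈ s M, ∑ t ∈ Lv, |∑ r ∈ range J,
          (box a c (fun j => u m j * ((b : ℝ) ^ (J * t + r) * α) + (b : ℝ) ^ (J * t + r) * y j) - V)| := by
          refine sum_le_sum fun m _ => ?_
          rw [hsumm m]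
          exact abs_sum_le_sum_abs _ _
      _ = ∑ t ∈ Lv, ∑ m ∈ s M, |∑ r ∈ range J,
          (box a c (fun j => u m j * ((b : ℝ) ^ (J * t + r) * α) + (b : ℝ) ^ (J * t + r) * y j) - V)| := sum_comm
      _ ≤ ∑ _t ∈ Lv, κ * J * (s M).card := sum_le_sum hblk
      _ = κ * PT.card * (s M).card := by rw [sum_const, nsmul_eq_mul, hPTcard]; ring
  -- the inequality of Markov
  have hbad : ∀ D : Fin R → Fin l → Fin b,
      (((s M).filter (fun m => ε * PT.card < |(occ b D PT (fun j => u m j * α + y j) : ℝ) - V * PT.card|)).card : ℝ) ≤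
        κ / ε * (s M).card := by
    intro D
    by_cases hP0 : PT.card = 0
    · have : (s M).filter (fun m => ε * PT.card < |(occ b D PT (fun j => u m j * α + y j) : ℝ) - V * PT.card|) = ∅ := by
        rw [filter_eq_empty_iff]
        intro m _
        have h1 := occ_le b D PT (fun j => u m j * α + y j)
        have h2 : occ b D PT (fun j => u m j * α + y j) = 0 := by omega
        rw [h2, hP0]
        simp
      rw [this, card_empty]
      push_cast
      positivity
    · have hPpos : (0 : ℝ) < PT.card := by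
        have : 0 < PT.card := Nat.pos_of_ne_zero hP0
        exact_mod_cast this
      have h1 : (((s M).filter (fun m => ε * PT.card <
          |(occ b D PT (fun j => u m j * α + y j) : ℝ) - V * PT.card|)).card : ℝ) * (ε * PT.card) ≤
          κ * PT.card * (s M).card := by
        refine le_trans ?_ (hdev D)
        rw [← nsmul_eq_mul]
        refine (card_nsmul_le_sum _ _ _ (fun m hm => (mem_filter.1 hm).2.le)).trans ?_
        exact sum_le_sum_of_subset_of_nonneg (filter_subset _ _) fun m _ _ => abs_nonneg _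
      have h2 : (((s M).filter (fun m => ε * PT.card <
          |(occ b D PT (fun j => u m j * α + y j) : ℝ) - V * PT.card|)).card : ℝ) * ε ≤ κ * (s M).card := by
        by_contra hcon
        push Not at hcon
        have := mul_lt_mul_of_pos_right hcon hPpos
        nlinarith
      rw [div_mul_eq_mul_div, le_div_iff₀ hε]
      exact h2
  obtain ⟨E, hE1, hE2, hE3⟩ := Pl_split b Q J α N hJ1
  rw [← hT, ← hPT] at hE1 hE2
  have hcardN : (Pl b Q J α N).card = PT.card + E.card := by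
    rw [hE2, card_union_of_disjoint hE1]
  have hsub : (s M).filter (fun m => ∃ D : Fin R → Fin l → Fin b,
        ε * (Pl b Q J α N).card + J < |(occ b D (Pl b Q J α N) (fun j => u m j * α + y j) : ℝ) -
          (Pl b Q J α N).card / ((b : ℝ) ^ l) ^ R|) ⊆
      univ.biUnion (fun D : Fin R → Fin l → Fin b => (s M).filter (fun m => ε * PT.card <
        |(occ b D PT (fun j => u m j * α + y j) : ℝ) - V * PT.card|)) := by
    intro m hm
    rw [mem_filter] at hm
    obtain ⟨hm1, D, hD⟩ := hm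
    rw [mem_biUnion]
    refine ⟨D, mem_univ _, ?_⟩
    rw [mem_filter]
    refine ⟨hm1, ?_⟩
    have h1 : (occ b D (Pl b Q J α N) (fun j => u m j * α + y j) : ℝ) =
        occ b D PT (fun j => u m j * α + y j) + occ b D E (fun j => u m j * α + y j) := by
      rw [hE2, occ_union b D PT E hE1]
      push_cast
      rfl
    have h2 : (occ b D E (fun j => u m j * α + y j) : ℝ) ≤ E.card := by
      exact_mod_cast occ_le b D E (fun j => u m j * α + y j)
    have h3 : (0 : ℝ) ≤ occ b D E (fun j => u m j * α + y j) := Nat.cast_nonneg _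
    have h4 : (E.card : ℝ) ≤ J := by exact_mod_cast hE3
    have h5 : (0 : ℝ) ≤ E.card := Nat.cast_nonneg _
    rw [h1, hcardN] at hD
    push_cast at hD
    have h6 : ((PT.card : ℝ) + E.card) / ((b : ℝ) ^ l) ^ R = V * PT.card + V * E.card := by
      rw [hV]
      ring
    rw [h6] at hD
    have h7 : |(occ b D PT (fun j => u m j * α + y j) : ℝ) + occ b D E (fun j => u m j * α + y j) -
        (V * PT.card + V * E.card)| ≤ |(occ b D PT (fun j => u m j * α + y j) : ℝ) - V * PT.card| + J := by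
      have e1 : (occ b D PT (fun j => u m j * α + y j) : ℝ) + occ b D E (fun j => u m j * α + y j) -
        (V * PT.card + V * E.card) = ((occ b D PT (fun j => u m j * α + y j) : ℝ) - V * PT.card) +
        (occ b D E (fun j => u m j * α + y j) - V * E.card) := by ring
      rw [e1]
      refine (abs_add_le _ _).trans (add_le_add le_rfl ?_)
      rw [abs_le]
      constructor
      · nlinarith
      · nlinarith
    have h8 : ε * PT.card ≤ ε * (PT.card + E.card) := by gcongr; linarith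
    linarith
  have hfin : (((s M).filter (fun m => ∃ D : Fin R → Fin l → Fin b,
        ε * (Pl b Q J α N).card + J < |(occ b D (Pl b Q J α N) (fun j => u m j * α + y j) : ℝ) -
          (Pl b Q J α N).card / ((b : ℝ) ^ l) ^ R|)).card : ℝ) ≤
      ∑ D : Fin R → Fin l → Fin b, (((s M).filter (fun m => ε * PT.card <
        |(occ b D PT (fun j => u m j * α + y j) : ℝ) - V * PT.card|)).card : ℝ) := by
    have := (card_le_card hsub).trans card_biUnion_le
    exact_mod_cast this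
  refine hfin.trans ((sum_le_sum fun D _ => hbad D).trans ?_)
  rw [sum_const, card_univ, nsmul_eq_mul, ← hND, hκd]
  refine le_of_eq ?_
  field_simp

end Pool.Agent.K7.H63.LN
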