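import Pool.Agent.K7.H63.LN.Weyl

/-!
Polynomial multipliers.
-/

set_option autoImplicit false

namespace Pool.Agent.K7.H63.LN

open Finset Real Polynomial
open Pool.Agent.Y933.KD (e e_zero e_add norm_e e_neg D D_mul abs_sin_pi two_mul_le_sin sum_Icc_range)

/-- polynomial multipliers -/
theorem uw_poly {R : ℕ} (f : Fin R → ℤ[X]) (hf : ∀ h : Fin R → ℤ, h ≠ 0 → 1 ≤ (∑ j, h j • f j).natDegree) :
    UW (fun M => Icc 1 M) (fun (m : ℕ) (j : Fin R) => (f j).eval (m : ℤ)) := by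
  intro U Δ hΔ
  -- a bound for the degrees and the coefficients
  obtain ⟨d, hd⟩ : ∃ d : ℕ, ∀ j, (f j).natDegree ≤ d :=
    ⟨univ.sup fun j => (f j).natDegree, fun j => le_sup (f := fun j => (f j).natDegree) (mem_univ j)⟩
  obtain ⟨B, hB⟩ : ∃ B : ℕ, ∀ j, ∀ i ≤ d, |(f j).coeff i| ≤ B := by
    refine ⟨∑ j, ∑ i ∈ range (d + 1), ((f j).coeff i).natAbs, fun j i hi => ?_⟩
    rw [← Int.natCast_natAbs]
    have h1 : ((f j).coeff i).natAbs ≤ ∑ i ∈ range (d + 1), ((f j).coeff i).natAbs :=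
      single_le_sum (f := fun i => ((f j).coeff i).natAbs) (fun _ _ => Nat.zero_le _) (mem_range.2 (by omega))
    have h2 : ∑ i ∈ range (d + 1), ((f j).coeff i).natAbs ≤
        ∑ j, ∑ i ∈ range (d + 1), ((f j).coeff i).natAbs :=
      single_le_sum (f := fun j => ∑ i ∈ range (d + 1), ((f j).coeff i).natAbs)
        (fun _ _ => Nat.zero_le _) (mem_univ j)
    exact_mod_cast h1.trans h2
  choose q₀ hq₀ hW using fun k => weyl_unif k Δ hΔ
  obtain ⟨q, hq⟩ : ∃ q : ℕ, ∀ k < d, q₀ k ≤ q :=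
    ⟨(range d).sup q₀, fun k hk => le_sup (f := q₀) (mem_range.2 hk)⟩
  refine ⟨q * (R * (U * B)), fun c hc => ?_⟩
  choose M₀ hM₀ using fun k => hW k c hc
  obtain ⟨M₁, hM₁⟩ : ∃ M₁ : ℕ, ∀ k < d, M₀ k ≤ M₁ :=
    ⟨(range d).sup M₀, fun k hk => le_sup (f := M₀) (mem_range.2 hk)⟩
  refine ⟨M₁, fun M hM θ θ' hfar h h' hne hU hU' => ?_⟩
  set Fz : ℤ[X] := ∑ j, h j • f j with hFz
  set Fz' : ℤ[X] := ∑ j, h' j • f j with hFz'
  have hcoef : ∀ (g : Fin R → ℤ), (∀ j, |g j| ≤ U) → ∀ i ≤ d, |(∑ j, g j • f j).coeff i| ≤ ((R * (U * B) : ℕ) : ℤ) := by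
    intro g hg i hi
    rw [finsetSum_coeff]
    calc |∑ j, (g j • f j).coeff i| ≤ ∑ j, |(g j • f j).coeff i| := abs_sum_le_sum_abs _ _
      _ ≤ ∑ _j : Fin R, ((U * B : ℕ) : ℤ) := by
          refine sum_le_sum fun j _ => ?_
          rw [coeff_smul, smul_eq_mul, abs_mul]
          push_cast
          exact mul_le_mul (hg j) (hB j i hi) (abs_nonneg _) (Int.natCast_nonneg _)
      _ = ((R * (U * B) : ℕ) : ℤ) := by rw [sum_const, card_univ, Fintype.card_fin, nsmul_eq_mul]; push_cast; ring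
  have hdeg : ∀ (g : Fin R → ℤ), (∑ j, g j • f j).natDegree ≤ d := by
    intro g
    refine natDegree_sum_le_of_forall_le _ _ fun j _ => ?_
    exact (natDegree_smul_le _ _).trans (hd j)
  obtain ⟨k, hk⟩ : ∃ k, max Fz.natDegree Fz'.natDegree = k + 1 := by
    have h1 : 1 ≤ max Fz.natDegree Fz'.natDegree := by
      rcases hne with h2 | h2
      · exact (hf h h2).trans (le_max_left _ _)
      · exact (hf h' h2).trans (le_max_right _ _)
    exact ⟨max Fz.natDegree Fz'.natDegree - 1, by omega⟩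
  have hkd : k + 1 ≤ d := by
    rw [← hk]
    exact max_le (hdeg h) (hdeg h')
  have hdF : Fz.natDegree ≤ k + 1 := by rw [← hk]; exact le_max_left _ _
  have hdF' : Fz'.natDegree ≤ k + 1 := by rw [← hk]; exact le_max_right _ _
  have hcne : Fz.coeff (k + 1) ≠ 0 ∨ Fz'.coeff (k + 1) ≠ 0 := by
    rcases le_total Fz.natDegree Fz'.natDegree with h1 | h1
    · right
      rw [max_eq_right h1] at hk
      rw [← hk]
      intro h0
      have : Fz' = 0 := leadingCoeff_eq_zero.1 h0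
      rw [this] at hk
      simp at hk
    · left
      rw [max_eq_left h1] at hk
      rw [← hk]
      intro h0
      have : Fz = 0 := leadingCoeff_eq_zero.1 h0
      rw [this] at hk
      simp at hk
  -- the real polynomial
  set p₀ : ℝ[X] := C θ * Fz.map (Int.castRingHom ℝ) + C θ' * Fz'.map (Int.castRingHom ℝ) with hp₀
  set p : ℝ[X] := taylor 1 p₀ with hp
  have hpd₀ : p₀.natDegree ≤ k + 1 := by
    refine natDegree_add_le_of_degree_le ?_ ?_
    · exact (natDegree_C_mul_le _ _).trans (natDegree_map_le.trans hdF)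
    · exact (natDegree_C_mul_le _ _).trans (natDegree_map_le.trans hdF')
  have hpd : p.natDegree ≤ k + 1 := by rw [hp, natDegree_taylor]; exact hpd₀
  have hpc : p.coeff (k + 1) = Fz.coeff (k + 1) * θ + Fz'.coeff (k + 1) * θ' := by
    rw [hp, taylor_top hpd₀, hp₀, coeff_add, coeff_C_mul, coeff_C_mul, coeff_map, coeff_map]
    simp only [eq_intCast]
    ring
  have hev : ∀ m : ℕ, ∑ j, (h j * θ + h' j * θ') * (((f j).eval ((m + 1 : ℕ) : ℤ) : ℤ) : ℝ) = p.eval (m : ℝ) := by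
    intro m
    have e1 : ∀ G : ℤ[X], (G.map (Int.castRingHom ℝ)).eval ((m : ℝ) + 1) = ((G.eval ((m + 1 : ℕ) : ℤ) : ℤ) : ℝ) := by
      intro G
      have : ((m : ℝ) + 1) = (Int.castRingHom ℝ) ((m + 1 : ℕ) : ℤ) := by simp
      rw [this, eval_map_apply]
      rfl
    rw [hp, taylor_eval, hp₀, eval_add, eval_mul, eval_mul, eval_C, eval_C, e1, e1, hFz, hFz', eval_finsetSum,
      eval_finsetSum]
    push_cast
    rw [mul_sum, mul_sum, ← sum_add_distrib]
    refine sum_congr rfl fun j _ => ?_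
    rw [eval_smul, eval_smul, smul_eq_mul, smul_eq_mul]
    push_cast
    ring
  rw [sum_Icc_range (fun m : ℕ => e (∑ j, (h j * θ + h' j * θ') * (((f j).eval (m : ℤ) : ℤ) : ℝ)))]
  simp only [hev]
  rw [Nat.card_Icc, Nat.add_sub_cancel]
  refine hM₀ k M ((hM₁ k (by omega)).trans hM) p hpd fun q' hq'1 hq'2 P => ?_
  rw [hpc]
  have h1 := hfar (q' * Fz.coeff (k + 1)) (q' * Fz'.coeff (k + 1)) (by
    have hq'0 : (q' : ℤ) ≠ 0 := by exact_mod_cast (by omega : q' ≠ 0)
    rcases hcne with h2 | h2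
    · exact Or.inl (mul_ne_zero hq'0 h2)
    · exact Or.inr (mul_ne_zero hq'0 h2)) ?_ ?_ P
  · refine h1.trans (le_of_eq ?_)
    congr 1
    push_cast
    ring
  · rw [abs_mul, Nat.abs_cast]
    push_cast
    have h2 := hcoef h hU (k + 1) hkd
    push_cast at h2
    have h3 : (q' : ℤ) ≤ q := by exact_mod_cast hq'2.trans (hq k (by omega))
    exact mul_le_mul h3 h2 (abs_nonneg _) (Int.natCast_nonneg _)
  · rw [abs_mul, Nat.abs_cast]
    push_cast
    have h2 := hcoef h' hU' (k + 1) hkd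
    push_cast at h2
    have h3 : (q' : ℤ) ≤ q := by exact_mod_cast hq'2.trans (hq k (by omega))
    exact mul_le_mul h3 h2 (abs_nonneg _) (Int.natCast_nonneg _)

end Pool.Agent.K7.H63.LN
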