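import Mathlib

/-!
Resonances between the places of a block.
-/

set_option autoImplicit false

namespace Pool.Agent.K7.H63.LN

open Finset

/-- a set of natural numbers below `J` with gaps larger than `G` -/
lemma card_gap (A : Finset ℕ) (J G : ℕ) (hA : ∀ a ∈ A, a < J) (hG : ∀ a ∈ A, ∀ a' ∈ A, a < a' → a + G < a') :
    A.card ≤ J / (G + 1) + 1 := by
  have h1 : A.card ≤ (range (J / (G + 1) + 1)).card := by
    refine card_le_card_of_injOn (fun a => a / (G + 1)) ?_ ?_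
    · intro a ha
      have h2 := hA a ha
      rw [coe_range, Set.mem_Iio]
      have h3 : a / (G + 1) ≤ J / (G + 1) := Nat.div_le_div_right h2.le
      show a / (G + 1) < _
      omega
    · intro a ha a' ha' h
      simp only at h
      rcases lt_trichotomy a a' with h2 | h2 | h2
      · have h3 := hG a ha a' ha' h2
        exfalso
        have h4 : a / (G + 1) + 1 ≤ a' / (G + 1) := by
          rw [← Nat.add_div_right _ (Nat.succ_pos G)]
          exact Nat.div_le_div_right (by omega)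
        omega
      · exact h2
      · have h3 := hG a' ha' a ha h2
        exfalso
        have h4 : a' / (G + 1) + 1 ≤ a / (G + 1) := by
          rw [← Nat.add_div_right _ (Nat.succ_pos G)]
          exact Nat.div_le_div_right (by omega)
        omega
  rwa [card_range] at h1

open Classical in
/-- the resonant pairs of places for a given pair of frequencies are few -/
lemma card_res {b : ℕ} (hb : 2 ≤ b) (Q J G W : ℕ) (hG1 : 1 ≤ G) (η : ℝ) (θ : ℕ → ℝ) (hθ : ∀ r, θ (r + 1) = b * θ r)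
    (hfar : ∀ r < J, ∀ P : ℤ, η ≤ |Q * θ r - P|)
    (hQ1 : 1 ≤ Q)
    (hQ : ∀ H g : ℕ, 1 ≤ H → H ≤ W → 1 ≤ g → g ≤ G → H * (b ^ g - 1) ∣ Q)
    (H H' : ℤ) (hH : |H| ≤ W) (hH' : |H'| ≤ W) (hne : H ≠ 0 ∨ H' ≠ 0) :
    ((range J ×ˢ range J).filter (fun p => ∃ P : ℤ, |H * θ p.1 + H' * θ p.2 - P| < η / (2 * Q))).card ≤
      J * (J / (G + 1) + 1) := by
  have hQR : (1 : ℝ) ≤ Q := by exact_mod_cast hQ1
  have hpow : ∀ r g, θ (r + g) = (b : ℝ) ^ g * θ r := by
    intro r g
    induction g with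
    | zero => simp
    | succ g ih => rw [← Nat.add_assoc, hθ, ih]; ring
  -- a divisor of `Q` keeps `θ r` away from the integers
  have hdiv : ∀ D : ℤ, D ≠ 0 → D ∣ Q → ∀ r < J, ∀ P : ℤ, η / Q ≤ |D * θ r - P| := by
    intro D hD hDQ r hr P
    obtain ⟨E, hE⟩ := hDQ
    have h1 := hfar r hr (E * P)
    have h2 : (Q : ℝ) * θ r - ((E * P : ℤ) : ℝ) = E * (D * θ r - P) := by
      have : (Q : ℝ) = (D : ℝ) * E := by exact_mod_cast hE
      rw [this]; push_cast; ring
    rw [h2, abs_mul] at h1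
    have h3 : |(E : ℝ)| ≤ Q := by
      have hE0 : E ≠ 0 := by
        rintro rfl
        rw [mul_zero] at hE
        omega
      have h4 : (1 : ℤ) ≤ |D| := Int.one_le_abs hD
      have h5 : (Q : ℤ) = |D| * |E| := by rw [← abs_mul, ← hE]; simp
      have h6 : |E| ≤ (Q : ℤ) := by
        rw [h5]
        nlinarith [abs_nonneg E]
      exact_mod_cast h6
    rw [div_le_iff₀ (by positivity)]
    calc η ≤ |(E : ℝ)| * |D * θ r - P| := h1
      _ ≤ Q * |D * θ r - P| := by gcongr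
      _ = |D * θ r - P| * Q := by ring
  have hη : η ≤ η / Q * Q := by field_simp; exact le_refl _
  by_cases hη0 : η ≤ 0
  · have : ((range J ×ˢ range J).filter (fun p => ∃ P : ℤ, |H * θ p.1 + H' * θ p.2 - P| < η / (2 * Q))) = ∅ := by
      rw [filter_eq_empty_iff]
      rintro p _ ⟨P, hP⟩
      have h1 : η / (2 * Q) ≤ 0 := div_nonpos_of_nonpos_of_nonneg hη0 (by positivity)
      linarith [abs_nonneg (H * θ p.1 + H' * θ p.2 - P)]
    rw [this, card_empty]
    exact Nat.zero_le _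
  push Not at hη0
  have hhalf : η / (2 * Q) + η / (2 * Q) = η / Q := by field_simp; ring
  have hhalf0 : 0 < η / (2 * Q) := by positivity
  have hWdvd : ∀ D : ℤ, D ≠ 0 → |D| ≤ W → ∀ g : ℕ, 1 ≤ g → g ≤ G → (D * ((b : ℤ) ^ g - 1)) ∣ Q ∧
      D * ((b : ℤ) ^ g - 1) ≠ 0 := by
    intro D hD hDW g hg1 hgG
    have hbg : 1 < b ^ g := Nat.one_lt_pow (by omega) (by omega)
    have e1 : ((b ^ g - 1 : ℕ) : ℤ) = (b : ℤ) ^ g - 1 := by
      rw [Nat.cast_sub hbg.le]; push_cast; ring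
    have h1 := hQ D.natAbs g (Int.natAbs_pos.2 hD) (by
      have : ((D.natAbs : ℕ) : ℤ) = |D| := Int.natCast_natAbs D
      omega) hg1 hgG
    constructor
    · rw [← e1]
      have h2 : ((D.natAbs * (b ^ g - 1) : ℕ) : ℤ) ∣ (Q : ℤ) := Int.natCast_dvd_natCast.2 h1
      push_cast [e1] at h2
      rw [← e1] at h2 
      rcases abs_choice D with h3 | h3
      · rwa [h3] at h2
      · rw [h3, neg_mul, neg_dvd] at h2
        exact h2
    · rw [← e1]
      exact mul_ne_zero hD (by exact_mod_cast (by omega : b ^ g - 1 ≠ 0))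
  by_cases hH'0 : H' = 0
  · -- no resonance at all
    subst hH'0
    have hH0 : H ≠ 0 := by simpa using hne
    have : ((range J ×ˢ range J).filter (fun p => ∃ P : ℤ, |H * θ p.1 + (0 : ℤ) * θ p.2 - P| < η / (2 * Q))) = ∅ := by
      rw [filter_eq_empty_iff]
      rintro p hp ⟨P, hP⟩
      rw [mem_product, mem_range, mem_range] at hp
      rw [Int.cast_zero, zero_mul, add_zero] at hP
      have h1 := hWdvd H hH0 hH 1 le_rfl hG1
      have h2 : H ∣ (Q : ℤ) := (Dvd.intro _ rfl).trans h1.1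
      have h3 := hdiv H hH0 h2 p.1 hp.1 P
      linarith
    rw [this, card_empty]
    exact Nat.zero_le _
  · have h1 : ((range J ×ˢ range J).filter
        (fun p => ∃ P : ℤ, |H * θ p.1 + H' * θ p.2 - P| < η / (2 * Q))).card ≤
        ∑ r ∈ range J, ((range J).filter (fun r' => ∃ P : ℤ, |H * θ r + H' * θ r' - P| < η / (2 * Q))).card := by
      rw [card_filter, sum_product]
      refine sum_le_sum fun r _ => ?_
      rw [card_filter]
    refine h1.trans ?_
    have h2 : ∀ r ∈ range J,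
        ((range J).filter (fun r' => ∃ P : ℤ, |H * θ r + H' * θ r' - P| < η / (2 * Q))).card ≤
          J / (G + 1) + 1 := by
      intro r _
      apply card_gap
      · intro a ha
        exact mem_range.1 (mem_filter.1 ha).1
      · intro a ha a' ha' haa
        rw [mem_filter, mem_range] at ha ha'
        obtain ⟨haJ, P, hP⟩ := ha
        obtain ⟨ha'J, P', hP'⟩ := ha'
        by_contra hcon
        push Not at hcon
        obtain ⟨g, hg⟩ : ∃ g, a' = a + g := ⟨a' - a, by omega⟩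
        have hg1 : 1 ≤ g := by omega
        have hgG : g ≤ G := by omega
        obtain ⟨hd1, hd2⟩ := hWdvd H' hH'0 hH' g hg1 hgG
        have h3 := hdiv _ hd2 hd1 a haJ (P' - P)
        have h4 : ((H' * ((b : ℤ) ^ g - 1) : ℤ) : ℝ) * θ a - ((P' - P : ℤ) : ℝ) =
            (H * θ r + H' * θ a' - P') - (H * θ r + H' * θ a - P) := by
          rw [hg, hpow]
          push_cast
          ring
        rw [h4] at h3
        have h5 := abs_sub (H * θ r + H' * θ a' - P') (H * θ r + H' * θ a - P)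
        linarith
    calc ∑ r ∈ range J, ((range J).filter
          (fun r' => ∃ P : ℤ, |H * θ r + H' * θ r' - P| < η / (2 * Q))).card
        ≤ ∑ _r ∈ range J, (J / (G + 1) + 1) := sum_le_sum h2
      _ = J * (J / (G + 1) + 1) := by rw [sum_const, card_range, smul_eq_mul]

open Classical in
/-- all the resonant pairs -/
lemma card_bad {b : ℕ} (hb : 2 ≤ b) (Q J G W : ℕ) (hG1 : 1 ≤ G) (η : ℝ) (θ : ℕ → ℝ) (hθ : ∀ r, θ (r + 1) = b * θ r)
    (hfar : ∀ r < J, ∀ P : ℤ, η ≤ |Q * θ r - P|)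
    (hQ1 : 1 ≤ Q)
    (hQ : ∀ H g : ℕ, 1 ≤ H → H ≤ W → 1 ≤ g → g ≤ G → H * (b ^ g - 1) ∣ Q) :
    ((range J ×ˢ range J).filter (fun p => ∃ H H' : ℤ, (H ≠ 0 ∨ H' ≠ 0) ∧ |H| ≤ W ∧ |H'| ≤ W ∧
      ∃ P : ℤ, |H * θ p.1 + H' * θ p.2 - P| < η / (2 * Q))).card ≤
      (2 * W + 1) ^ 2 * (J * (J / (G + 1) + 1)) := by
  set I : Finset (ℤ × ℤ) := ((Icc (-(W : ℤ)) W) ×ˢ (Icc (-(W : ℤ)) W)).filter (fun p => p.1 ≠ 0 ∨ p.2 ≠ 0) with hI
  have h1 : ((range J ×ˢ range J).filter (fun p => ∃ H H' : ℤ, (H ≠ 0 ∨ H' ≠ 0) ∧ |H| ≤ W ∧ |H'| ≤ W ∧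
      ∃ P : ℤ, |H * θ p.1 + H' * θ p.2 - P| < η / (2 * Q))) ⊆
      I.biUnion (fun q => (range J ×ˢ range J).filter (fun p =>
        ∃ P : ℤ, |q.1 * θ p.1 + q.2 * θ p.2 - P| < η / (2 * Q))) := by
    intro p hp
    rw [mem_filter] at hp
    obtain ⟨hp1, H, H', hne, hH, hH', hP⟩ := hp
    rw [mem_biUnion]
    refine ⟨(H, H'), ?_, ?_⟩
    · rw [hI, mem_filter, mem_product, mem_Icc, mem_Icc]
      rw [abs_le] at hH hH'
      exact ⟨⟨hH, hH'⟩, hne⟩
    · rw [mem_filter]
      exact ⟨hp1, hP⟩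
  refine (card_le_card h1).trans (card_biUnion_le.trans ?_)
  have h2 : ∀ q ∈ I, ((range J ×ˢ range J).filter (fun p =>
        ∃ P : ℤ, |q.1 * θ p.1 + q.2 * θ p.2 - P| < η / (2 * Q))).card ≤ J * (J / (G + 1) + 1) := by
    intro q hq
    rw [hI, mem_filter, mem_product, mem_Icc, mem_Icc] at hq
    exact card_res hb Q J G W hG1 η θ hθ hfar hQ1 hQ q.1 q.2 (abs_le.2 hq.1.1) (abs_le.2 hq.1.2) hq.2
  refine (sum_le_card_nsmul _ _ _ h2).trans ?_
  rw [smul_eq_mul]
  refine Nat.mul_le_mul_right _ ?_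
  refine (card_filter_le _ _).trans ?_
  rw [card_product, Int.card_Icc, sq]
  have : ((W : ℤ) + 1 - -(W : ℤ)).toNat = 2 * W + 1 := by omega
  rw [this]

end Pool.Agent.K7.H63.LN
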