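import Pool.Agent.K7.H63.LN.Equi
import Pool.Agent.K7.H63.LN.Res

/-!
The variance of the number of occurrences of a matrix in a block of places.
-/

set_option autoImplicit false

namespace Pool.Agent.K7.H63.LN

open Finset Real
open Pool.Agent.Y933.KD (e e_zero e_add norm_e e_sum ind ind_nonneg ind_le_one)

variable {ι : Type*} {R : ℕ}

/-- the error term of the criterion of Weyl -/
noncomputable def err (R K : ℕ) (Δ : ℝ) : ℝ :=
  (2 * (K : ℝ) ^ 3 + 1) ^ (R + R) * Δ + ((R + R : ℕ) : ℝ) * (12 / K + 5 * Δ)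

lemma pair {K : ℕ} (hK : 0 < K) {s : Finset ι} (hs : s.Nonempty) (u : ι → Fin R → ℤ) (θ θ' : ℝ)
    (y y' : Fin R → ℝ) (Δ : ℝ) (hΔ0 : 0 ≤ Δ)
    (hexp : ∀ h h' : Fin R → ℤ, (h ≠ 0 ∨ h' ≠ 0) → (∀ j, |h j| ≤ (K : ℤ) ^ 3) → (∀ j, |h' j| ≤ (K : ℤ) ^ 3) →
      ‖∑ m ∈ s, e (∑ j, (h j * θ + h' j * θ') * u m j)‖ ≤ Δ * s.card)
    (a c a' c' : Fin R → ℝ) (ha : ∀ j, 0 ≤ a j) (hac : ∀ j, a j ≤ c j) (hc : ∀ j, c j ≤ 1)
    (ha' : ∀ j, 0 ≤ a' j) (hac' : ∀ j, a' j ≤ c' j) (hc' : ∀ j, c' j ≤ 1) :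
    |(1 / (s.card : ℝ)) * ∑ m ∈ s, (∏ j, ind (a j) (c j) (u m j * θ + y j)) *
        (∏ j, ind (a' j) (c' j) (u m j * θ' + y' j)) - (∏ j, (c j - a j)) * ∏ j, (c' j - a' j)| ≤
      err R K Δ := by
  have key := equi (k := R + R) hK hs
    (fun m => Fin.append (fun j => u m j * θ + y j) (fun j => u m j * θ' + y' j)) Δ hΔ0 (by
      intro h hne hh
      have h0 : ∀ m, ∑ i, (h i : ℝ) * Fin.append (fun j => u m j * θ + y j) (fun j => u m j * θ' + y' j) i =
          (∑ j, (h (Fin.castAdd R j) * y j) + ∑ j, (h (Fin.natAdd R j) * y' j)) +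
          ∑ j, ((h (Fin.castAdd R j) : ℝ) * θ + h (Fin.natAdd R j) * θ') * u m j := by
        intro m
        rw [Fin.sum_univ_add]
        simp only [Fin.append_left, Fin.append_right]
        rw [← sum_add_distrib, ← sum_add_distrib, ← sum_add_distrib]
        refine sum_congr rfl fun j _ => ?_
        ring
      simp only [h0, e_add]
      rw [← mul_sum, norm_mul, norm_mul, norm_e, norm_e, one_mul, one_mul]
      refine hexp (fun j => h (Fin.castAdd R j)) (fun j => h (Fin.natAdd R j)) ?_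
        (fun j => hh _) (fun j => hh _)
      by_contra hcon
      push Not at hcon
      apply hne
      funext i
      refine Fin.addCases (fun j => ?_) (fun j => ?_) i
      · exact congrFun hcon.1 j
      · exact congrFun hcon.2 j)
    (Fin.append a a') (Fin.append c c') (by
      intro i
      refine Fin.addCases (fun j => ?_) (fun j => ?_) i
      · rw [Fin.append_left]; exact ha j
      · rw [Fin.append_right]; exact ha' j) (by
      intro i
      refine Fin.addCases (fun j => ?_) (fun j => ?_) i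
      · rw [Fin.append_left, Fin.append_left]; exact hac j
      · rw [Fin.append_right, Fin.append_right]; exact hac' j) (by
      intro i
      refine Fin.addCases (fun j => ?_) (fun j => ?_) i
      · rw [Fin.append_left]; exact hc j
      · rw [Fin.append_right]; exact hc' j)
  simp only [Fin.prod_univ_add, Fin.append_left, Fin.append_right] at key
  exact key

lemma ind_unit (x : ℝ) : ind 0 1 x = 1 := by
  unfold ind
  rw [if_pos ⟨Int.fract_nonneg x, Int.fract_lt_one x⟩]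

/-- the indicator function of a box -/
noncomputable def box (a c : Fin R → ℝ) (x : Fin R → ℝ) : ℝ := ∏ j, ind (a j) (c j) (x j)

lemma box_nonneg (a c x : Fin R → ℝ) : 0 ≤ box a c x := prod_nonneg fun j _ => ind_nonneg _ _ _

lemma box_le_one (a c x : Fin R → ℝ) : box a c x ≤ 1 :=
  prod_le_one (fun j _ => ind_nonneg _ _ _) fun j _ => ind_le_one _ _ _

/-- a good pair of places -/
lemma good_pair {K : ℕ} (hK : 0 < K) {s : Finset ι} (hs : s.Nonempty) (u : ι → Fin R → ℤ) (θ θ' : ℝ)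
    (y y' : Fin R → ℝ) (Δ : ℝ) (hΔ0 : 0 ≤ Δ)
    (hexp : ∀ h h' : Fin R → ℤ, (h ≠ 0 ∨ h' ≠ 0) → (∀ j, |h j| ≤ (K : ℤ) ^ 3) → (∀ j, |h' j| ≤ (K : ℤ) ^ 3) →
      ‖∑ m ∈ s, e (∑ j, (h j * θ + h' j * θ') * u m j)‖ ≤ Δ * s.card)
    (a c : Fin R → ℝ) (ha : ∀ j, 0 ≤ a j) (hac : ∀ j, a j ≤ c j) (hc : ∀ j, c j ≤ 1) :
    ∑ m ∈ s, (box a c (fun j => u m j * θ + y j) - ∏ j, (c j - a j)) *
      (box a c (fun j => u m j * θ' + y' j) - ∏ j, (c j - a j)) ≤ 3 * err R K Δ * s.card := by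
  have hcard : (0 : ℝ) < s.card := by exact_mod_cast Finset.card_pos.2 hs
  set V : ℝ := ∏ j, (c j - a j) with hV
  have hV0 : 0 ≤ V := prod_nonneg fun j _ => by linarith [hac j]
  have hV1 : V ≤ 1 := prod_le_one (fun j _ => by linarith [hac j]) fun j _ => by linarith [ha j, hc j]
  have k1 := pair hK hs u θ θ' y y' Δ hΔ0 hexp a c a c ha hac hc ha hac hc
  have k2 := pair hK hs u θ θ' y y' Δ hΔ0 hexp a c (fun _ => 0) (fun _ => 1) ha hac hc
    (fun _ => le_rfl) (fun _ => zero_le_one) (fun _ => le_rfl)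
  have k3 := pair hK hs u θ θ' y y' Δ hΔ0 hexp (fun _ => 0) (fun _ => 1) a c
    (fun _ => le_rfl) (fun _ => zero_le_one) (fun _ => le_rfl) ha hac hc
  simp only [ind_unit, prod_const_one, one_mul, mul_one, sub_zero] at k2 k3
  rw [← hV] at k1 k2 k3
  set A := ∑ m ∈ s, (∏ j, ind (a j) (c j) (u m j * θ + y j)) *
        (∏ j, ind (a j) (c j) (u m j * θ' + y' j)) with hA
  set A1 := ∑ m ∈ s, (∏ j, ind (a j) (c j) (u m j * θ + y j)) with hA1
  set A2 := ∑ m ∈ s, (∏ j, ind (a j) (c j) (u m j * θ' + y' j)) with hA2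
  have e1 : ∑ m ∈ s, (box a c (fun j => u m j * θ + y j) - V) *
      (box a c (fun j => u m j * θ' + y' j) - V) = A - V * A1 - V * A2 + V * V * s.card := by
    rw [hA, hA1, hA2, mul_sum, mul_sum, ← sum_sub_distrib, ← sum_sub_distrib]
    have : V * V * (s.card : ℝ) = ∑ _m ∈ s, V * V := by rw [sum_const, nsmul_eq_mul]; ring
    rw [this, ← sum_add_distrib]
    refine sum_congr rfl fun m _ => ?_
    unfold box
    ring
  rw [e1]
  have f1 : A ≤ (V * V + err R K Δ) * s.card := by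
    have := (abs_le.1 k1).2
    have h2 : 1 / (s.card : ℝ) * A ≤ V * V + err R K Δ := by linarith
    rw [one_div, inv_mul_le_iff₀ hcard] at h2
    linarith
  have f2 : (V - err R K Δ) * s.card ≤ A1 := by
    have := (abs_le.1 k2).1
    have h2 : V - err R K Δ ≤ 1 / (s.card : ℝ) * A1 := by linarith
    rw [one_div, le_inv_mul_iff₀ hcard] at h2
    linarith
  have f3 : (V - err R K Δ) * s.card ≤ A2 := by
    have := (abs_le.1 k3).1
    have h2 : V - err R K Δ ≤ 1 / (s.card : ℝ) * A2 := by linarith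
    rw [one_div, le_inv_mul_iff₀ hcard] at h2
    linarith
  have herr : 0 ≤ err R K Δ := (abs_nonneg _).trans k1
  have g2 := mul_le_mul_of_nonneg_left f2 hV0
  have g3 := mul_le_mul_of_nonneg_left f3 hV0
  have g4 : V * (err R K Δ * s.card) ≤ 1 * (err R K Δ * s.card) := by gcongr
  nlinarith

open Classical in
/-- the mean absolute deviation in a block -/
theorem block {K : ℕ} (hK : 0 < K) {s : Finset ι} (hs : s.Nonempty) (u : ι → Fin R → ℤ) (J : ℕ)
    (θ : ℕ → ℝ) (y : ℕ → Fin R → ℝ) (Δ : ℝ) (hΔ0 : 0 ≤ Δ) (Bad : ℕ × ℕ → Prop)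
    (hexp : ∀ r < J, ∀ r' < J, ¬ Bad (r, r') →
      ∀ h h' : Fin R → ℤ, (h ≠ 0 ∨ h' ≠ 0) → (∀ j, |h j| ≤ (K : ℤ) ^ 3) → (∀ j, |h' j| ≤ (K : ℤ) ^ 3) →
      ‖∑ m ∈ s, e (∑ j, (h j * θ r + h' j * θ r') * u m j)‖ ≤ Δ * s.card)
    (κ : ℝ) (hκ : 0 ≤ κ)
    (hbad : 3 * err R K Δ * (J : ℝ) ^ 2 + ((range J ×ˢ range J).filter (fun p => Bad p)).card ≤ κ ^ 2 * (J : ℝ) ^ 2)
    (a c : Fin R → ℝ) (ha : ∀ j, 0 ≤ a j) (hac : ∀ j, a j ≤ c j) (hc : ∀ j, c j ≤ 1) :
    ∑ m ∈ s, |∑ r ∈ range J, (box a c (fun j => u m j * θ r + y r j) - ∏ j, (c j - a j))| ≤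
      κ * J * s.card := by
  have hcard : (0 : ℝ) < s.card := by exact_mod_cast Finset.card_pos.2 hs
  set V : ℝ := ∏ j, (c j - a j) with hV
  have hV0 : 0 ≤ V := prod_nonneg fun j _ => by linarith [hac j]
  have hV1 : V ≤ 1 := prod_le_one (fun j _ => by linarith [hac j]) fun j _ => by linarith [ha j, hc j]
  have h1 : ∑ m ∈ s, (∑ r ∈ range J, (box a c (fun j => u m j * θ r + y r j) - V)) ^ 2 ≤
      κ ^ 2 * (J : ℝ) ^ 2 * s.card := by
    have e1 : ∑ m ∈ s, (∑ r ∈ range J, (box a c (fun j => u m j * θ r + y r j) - V)) ^ 2 =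
        ∑ p ∈ range J ×ˢ range J, ∑ m ∈ s, (box a c (fun j => u m j * θ p.1 + y p.1 j) - V) *
          (box a c (fun j => u m j * θ p.2 + y p.2 j) - V) := by
      rw [sum_comm]
      refine sum_congr rfl fun m _ => ?_
      rw [sq, sum_mul_sum, sum_product]
    rw [e1, ← sum_filter_add_sum_filter_not (range J ×ˢ range J) (fun p => Bad p)]
    have h2 : ∑ p ∈ (range J ×ˢ range J).filter (fun p => Bad p), ∑ m ∈ s,
        (box a c (fun j => u m j * θ p.1 + y p.1 j) - V) *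
          (box a c (fun j => u m j * θ p.2 + y p.2 j) - V) ≤
        ((range J ×ˢ range J).filter (fun p => Bad p)).card * s.card := by
      rw [← nsmul_eq_mul]
      refine sum_le_card_nsmul _ _ _ fun p _ => ?_
      rw [← nsmul_one]
      refine sum_le_card_nsmul _ _ _ fun m _ => ?_
      have g1 := box_nonneg a c (fun j => u m j * θ p.1 + y p.1 j)
      have g2 := box_le_one a c (fun j => u m j * θ p.1 + y p.1 j)
      have g3 := box_nonneg a c (fun j => u m j * θ p.2 + y p.2 j)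
      have g4 := box_le_one a c (fun j => u m j * θ p.2 + y p.2 j)
      have g5 : |(box a c (fun j => u m j * θ p.1 + y p.1 j) - V) *
          (box a c (fun j => u m j * θ p.2 + y p.2 j) - V)| ≤ 1 := by
        rw [abs_mul]
        refine mul_le_one₀ ?_ (abs_nonneg _) ?_
        · rw [abs_le]; constructor <;> linarith
        · rw [abs_le]; constructor <;> linarith
      exact (le_abs_self _).trans g5
    have h3 : ∑ p ∈ (range J ×ˢ range J).filter (fun p => ¬ Bad p), ∑ m ∈ s,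
        (box a c (fun j => u m j * θ p.1 + y p.1 j) - V) *
          (box a c (fun j => u m j * θ p.2 + y p.2 j) - V) ≤
        (J : ℝ) ^ 2 * (3 * err R K Δ * s.card) := by
      have herr : 0 ≤ 3 * err R K Δ * s.card := by
        unfold err
        positivity
      have g1 : ∀ p ∈ (range J ×ˢ range J).filter (fun p => ¬ Bad p), ∑ m ∈ s,
        (box a c (fun j => u m j * θ p.1 + y p.1 j) - V) *
          (box a c (fun j => u m j * θ p.2 + y p.2 j) - V) ≤ 3 * err R K Δ * s.card := by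
        intro p hp
        rw [mem_filter, mem_product, mem_range, mem_range] at hp
        exact good_pair hK hs u (θ p.1) (θ p.2) (y p.1) (y p.2) Δ hΔ0
          (hexp p.1 hp.1.1 p.2 hp.1.2 hp.2) a c ha hac hc
      refine (sum_le_card_nsmul _ _ _ g1).trans ?_
      rw [nsmul_eq_mul]
      refine mul_le_mul_of_nonneg_right ?_ herr
      have g2 : ((range J ×ˢ range J).filter (fun p => ¬ Bad p)).card ≤ J * J := by
        refine (card_filter_le _ _).trans ?_
        rw [card_product, card_range]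
      calc (((range J ×ˢ range J).filter (fun p => ¬ Bad p)).card : ℝ) ≤ ((J * J : ℕ) : ℝ) := by
            exact_mod_cast g2
        _ = (J : ℝ) ^ 2 := by push_cast; ring
    calc _ ≤ ((range J ×ˢ range J).filter (fun p => Bad p)).card * (s.card : ℝ) +
          (J : ℝ) ^ 2 * (3 * err R K Δ * s.card) := add_le_add h2 h3
      _ = (3 * err R K Δ * (J : ℝ) ^ 2 + ((range J ×ˢ range J).filter (fun p => Bad p)).card) * s.card := by ring
      _ ≤ κ ^ 2 * (J : ℝ) ^ 2 * s.card := by gcongr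
  have h2 : (∑ m ∈ s, |∑ r ∈ range J, (box a c (fun j => u m j * θ r + y r j) - V)|) ^ 2 ≤
      (κ * J * s.card) ^ 2 := by
    refine sq_sum_le_card_mul_sum_sq.trans ?_
    simp only [sq_abs]
    calc (s.card : ℝ) * ∑ m ∈ s, (∑ r ∈ range J, (box a c (fun j => u m j * θ r + y r j) - V)) ^ 2
        ≤ s.card * (κ ^ 2 * (J : ℝ) ^ 2 * s.card) := by gcongr
      _ = (κ * J * s.card) ^ 2 := by ring
  exact le_of_sq_le_sq h2 (by positivity)

end Pool.Agent.K7.H63.LN
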