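import Pool.Agent.K7.H63.LN.Main

/-!
A uniform form of the theorem of Weyl on the exponential sums of polynomials.
-/

set_option autoImplicit false

namespace Pool.Agent.K7.H63.LN

open Finset Real Polynomial
open Pool.Agent.Y933.KD (e e_zero e_add norm_e e_neg D D_mul abs_sin_pi two_mul_le_sin sum_Icc_range)

lemma norm_D_le (M : ℕ) {a c : ℝ} (hc : 0 < c) (h : ∀ P : ℤ, c ≤ |a - P|) : ‖D M a‖ ≤ 1 / (2 * c) := by
  rw [le_div_iff₀ (by positivity)]
  have h2 := D_mul M a
  have h3 : 2 * c ≤ |sin (π * a)| := by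
    rw [abs_sin_pi]
    have := two_mul_le_sin (abs_nonneg _) (abs_sub_round a)
    linarith [h (round a)]
  calc ‖D M a‖ * (2 * c) ≤ ‖D M a‖ * |sin (π * a)| := by gcongr
    _ ≤ 1 := by rw [h2]; exact abs_sin_le_one _

lemma taylor_top {k : ℕ} {p : ℝ[X]} (hp : p.natDegree ≤ k) (r : ℝ) : (taylor r p).coeff k = p.coeff k := by
  rw [taylor_coeff]
  have h1 : (hasseDeriv k p).natDegree ≤ 0 := (natDegree_hasseDeriv_le p k).trans (by omega)
  rw [eq_C_of_natDegree_le_zero h1, eval_C, hasseDeriv_coeff]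
  simp

lemma taylor_next {k : ℕ} {p : ℝ[X]} (hp : p.natDegree ≤ k + 1) (r : ℝ) :
    (taylor r p).coeff k = p.coeff k + (k + 1) * p.coeff (k + 1) * r := by
  rw [taylor_coeff]
  have h1 : (hasseDeriv k p).natDegree ≤ 1 := (natDegree_hasseDeriv_le p k).trans (by omega)
  rw [eq_X_add_C_of_natDegree_le_one h1]
  simp only [eval_add, eval_mul, eval_C, eval_X, hasseDeriv_coeff]
  rw [show 1 + k = k + 1 by ring, Nat.choose_succ_self_right, zero_add, Nat.choose_self]
  push_cast
  ring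

theorem weyl_unif (k : ℕ) : ∀ δ : ℝ, 0 < δ → ∃ q₀ : ℕ, 1 ≤ q₀ ∧ ∀ c : ℝ, 0 < c → ∃ M₀ : ℕ, ∀ M : ℕ, M₀ ≤ M →
    ∀ p : ℝ[X], p.natDegree ≤ k + 1 →
      (∀ q : ℕ, 1 ≤ q → q ≤ q₀ → ∀ P : ℤ, c ≤ |q * p.coeff (k + 1) - P|) →
      ‖∑ m ∈ range M, e (p.eval (m : ℝ))‖ ≤ δ * M := by
  induction k with
  | zero =>
    intro δ hδ
    refine ⟨1, le_rfl, fun c hc => ?_⟩
    obtain ⟨M₀, hM₀⟩ := exists_nat_ge (1 / (2 * c) / δ)
    refine ⟨M₀, fun M hM p hp h => ?_⟩
    have h1 : ∀ m : ℕ, p.eval (m : ℝ) = p.coeff 0 + m * p.coeff 1 := by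
      intro m
      have hp' := eq_X_add_C_of_natDegree_le_one (p := p) (by simpa using hp)
      calc p.eval (m : ℝ) = (C (p.coeff 1) * X + C (p.coeff 0)).eval (m : ℝ) := by rw [← hp']
        _ = p.coeff 0 + m * p.coeff 1 := by
            simp only [eval_add, eval_mul, eval_C, eval_X]
            ring
    simp only [h1, e_add]
    rw [← mul_sum, norm_mul, norm_e, one_mul]
    have h2 := norm_D_le M (a := p.coeff 1) hc (fun P => by
      have := h 1 le_rfl le_rfl P
      simpa using this)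
    have h3 : (M₀ : ℝ) ≤ M := by exact_mod_cast hM
    have h4 : 1 / (2 * c) ≤ δ * M := by
      have := hM₀.trans h3
      rw [div_le_iff₀ hδ] at this
      linarith
    exact h2.trans h4
  | succ k ih =>
    intro δ hδ
    obtain ⟨H, hH⟩ := exists_nat_ge (8 / δ ^ 2 + 1)
    have hH0 : (0 : ℝ) ≤ 8 / δ ^ 2 := by positivity
    have hHR : (1 : ℝ) ≤ H := by linarith
    have hH1 : 1 ≤ H := by exact_mod_cast hHR
    obtain ⟨q₁, hq₁, IH⟩ := ih (δ ^ 2 / 8) (by positivity)
    refine ⟨(k + 2) * H * q₁, Nat.mul_pos (Nat.mul_pos (by omega) hH1) hq₁, fun c hc => ?_⟩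
    obtain ⟨M₁, hM₁⟩ := IH c hc
    obtain ⟨M₂, hM₂⟩ := exists_nat_ge (4 * H / δ)
    refine ⟨max M₁ M₂, fun M hM p hp h => ?_⟩
    have hMR : (0 : ℝ) ≤ M := Nat.cast_nonneg M
    have hM2 : (2 : ℝ) * H ≤ δ / 2 * M := by
      have h1 : (M₂ : ℝ) ≤ M := by exact_mod_cast (le_max_right M₁ M₂).trans hM
      have := hM₂.trans h1
      rw [div_le_iff₀ hδ] at this
      linarith
    set F : ℕ → ℂ := fun m => e (p.eval (m : ℝ)) with hF
    have hFn : ∀ m, ‖F m‖ = 1 := fun m => norm_e _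
    set S := ∑ m ∈ range M, F m with hS
    -- shifts
    have hshift : ∀ g : ℕ, ‖S - ∑ m ∈ range M, F (m + g)‖ ≤ 2 * g := by
      intro g
      induction g with
      | zero => simp [hS]
      | succ g ih =>
        have h1 : ∑ m ∈ range M, F (m + g) - ∑ m ∈ range M, F (m + (g + 1)) = F g - F (M + g) := by
          have := sum_range_succ (fun m => F (m + g)) M
          have h2 := sum_range_succ' (fun m => F (m + g)) M
          rw [this] at h2
          have h3 : ∀ m, F (m + 1 + g) = F (m + (g + 1)) := fun m => by congr 1; ring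
          simp only [h3, zero_add] at h2
          linear_combination h2
        have e1 : S - ∑ m ∈ range M, F (m + (g + 1)) = (S - ∑ m ∈ range M, F (m + g)) + (F g - F (M + g)) := by
          rw [← h1]; ring
        rw [e1]
        refine (norm_add_le _ _).trans ?_
        have h2 : ‖F g - F (M + g)‖ ≤ 2 := by
          refine (norm_sub_le _ _).trans ?_
          rw [hFn, hFn]; norm_num
        push_cast
        linarith
    set Z : ℕ → ℂ := fun m => ∑ g ∈ range H, F (m + g) with hZ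
    have h1 : ‖(H : ℂ) * S - ∑ m ∈ range M, Z m‖ ≤ 2 * H * H := by
      have e1 : (H : ℂ) * S - ∑ m ∈ range M, Z m = ∑ g ∈ range H, (S - ∑ m ∈ range M, F (m + g)) := by
        rw [sum_sub_distrib, sum_const, card_range, nsmul_eq_mul, hZ, sum_comm]
      rw [e1]
      refine (norm_sum_le _ _).trans ?_
      calc ∑ g ∈ range H, ‖S - ∑ m ∈ range M, F (m + g)‖ ≤ ∑ _g ∈ range H, (2 * H : ℝ) := by
            refine sum_le_sum fun g hg => (hshift g).trans ?_
            have : (g : ℝ) ≤ H := by exact_mod_cast (mem_range.1 hg).le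
            linarith
        _ = 2 * H * H := by rw [sum_const, card_range, nsmul_eq_mul]; ring
    have hoff : ∀ g ∈ range H, ∀ g' ∈ range H, g ≠ g' →
        ‖∑ m ∈ range M, F (m + g) * (starRingEnd ℂ) (F (m + g'))‖ ≤ δ ^ 2 / 8 * M := by
      intro g hg g' hg' hne
      rw [mem_range] at hg hg'
      set q : ℝ[X] := taylor (g : ℝ) p - taylor (g' : ℝ) p with hq
      have e1 : ∀ m : ℕ, F (m + g) * (starRingEnd ℂ) (F (m + g')) = e (q.eval (m : ℝ)) := by
        intro m
        rw [hF]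
        simp only
        rw [← e_neg, ← e_add, hq, eval_sub, taylor_eval, taylor_eval]
        push_cast
        congr 1
      simp only [e1]
      have hdeg1 : ∀ r : ℝ, (taylor r p).natDegree ≤ k + 2 := by
        intro r
        rw [natDegree_taylor]
        exact hp
      have hqd : q.natDegree ≤ k + 1 := by
        rw [natDegree_le_iff_coeff_eq_zero]
        intro N hN
        rcases Nat.lt_or_ge (k + 2) N with h2 | h2
        · rw [hq, coeff_sub, coeff_eq_zero_of_natDegree_lt ((hdeg1 _).trans_lt h2),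
            coeff_eq_zero_of_natDegree_lt ((hdeg1 _).trans_lt h2), sub_zero]
        · have h3 : N = k + 2 := by omega
          rw [h3, hq, coeff_sub, taylor_top hp, taylor_top hp, sub_self]
      have hqc : q.coeff (k + 1) = (k + 2) * p.coeff (k + 2) * (g - g') := by
        have e2 : ∀ r : ℝ, (taylor r p).coeff (k + 1) = p.coeff (k + 1) + (k + 2) * p.coeff (k + 2) * r := by
          intro r
          have := taylor_next (k := k + 1) hp r
          push_cast at this
          rw [this]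
          ring_nf
        rw [hq, coeff_sub, e2, e2]
        ring
      refine hM₁ M ((le_max_left _ _).trans hM) q hqd fun q' hq'1 hq'2 P => ?_
      rw [hqc]
      rcases lt_or_gt_of_ne hne with hlt | hlt
      · obtain ⟨d, hd⟩ : ∃ d, g' = g + (d + 1) := ⟨g' - g - 1, by omega⟩
        have h4 := h ((k + 2) * (d + 1) * q') (Nat.mul_pos (by positivity) hq'1)
          (Nat.mul_le_mul (Nat.mul_le_mul_left _ (by omega)) hq'2) (-P)
        have h5 : (q' : ℝ) * ((k + 2) * p.coeff (k + 2) * (g - g')) - P =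
            -(((((k + 2) * (d + 1) * q' : ℕ) : ℝ)) * p.coeff (k + 1 + 1) - ((-P : ℤ) : ℝ)) := by
          rw [hd]
          push_cast
          ring
        rw [h5, abs_neg]
        exact h4
      · obtain ⟨d, hd⟩ : ∃ d, g = g' + (d + 1) := ⟨g - g' - 1, by omega⟩
        have h4 := h ((k + 2) * (d + 1) * q') (Nat.mul_pos (by positivity) hq'1)
          (Nat.mul_le_mul (Nat.mul_le_mul_left _ (by omega)) hq'2) P
        have h5 : (q' : ℝ) * ((k + 2) * p.coeff (k + 2) * (g - g')) - P =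
            (((((k + 2) * (d + 1) * q' : ℕ) : ℝ)) * p.coeff (k + 1 + 1) - (P : ℝ)) := by
          rw [hd]
          push_cast
          ring
        rw [h5]
        exact h4
    have h2 : ‖∑ m ∈ range M, Z m‖ ^ 2 ≤ (M : ℝ) ^ 2 * (H ^ 2 * (δ ^ 2 / 4)) := by
      have a1 : ‖∑ m ∈ range M, Z m‖ ^ 2 ≤ M * ∑ m ∈ range M, ‖Z m‖ ^ 2 := by
        have b1 : ‖∑ m ∈ range M, Z m‖ ≤ ∑ m ∈ range M, ‖Z m‖ := norm_sum_le _ _
        have b2 : (∑ m ∈ range M, ‖Z m‖) ^ 2 ≤ (range M).card * ∑ m ∈ range M, ‖Z m‖ ^ 2 :=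
          sq_sum_le_card_mul_sum_sq
        rw [card_range] at b2
        exact (pow_le_pow_left₀ (norm_nonneg _) b1 2).trans b2
      have a2 : ((∑ m ∈ range M, ‖Z m‖ ^ 2 : ℝ) : ℂ) = ∑ g ∈ range H, ∑ g' ∈ range H,
          ∑ m ∈ range M, F (m + g) * (starRingEnd ℂ) (F (m + g')) := by
        push_cast
        have b1 : ∀ m ∈ range M, ((‖Z m‖ : ℂ)) ^ 2 = ∑ g ∈ range H, ∑ g' ∈ range H,
            F (m + g) * (starRingEnd ℂ) (F (m + g')) := by
          intro m _
          rw [← Complex.mul_conj', hZ]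
          simp only
          rw [map_sum, sum_mul_sum]
        rw [sum_congr rfl b1, sum_comm]
        refine sum_congr rfl fun g _ => ?_
        rw [sum_comm]
      have a3 : ∑ m ∈ range M, ‖Z m‖ ^ 2 ≤ ∑ g ∈ range H, ∑ g' ∈ range H,
          ‖∑ m ∈ range M, F (m + g) * (starRingEnd ℂ) (F (m + g'))‖ := by
        have b1 : ∑ m ∈ range M, ‖Z m‖ ^ 2 = ‖((∑ m ∈ range M, ‖Z m‖ ^ 2 : ℝ) : ℂ)‖ := by
          rw [Complex.norm_real, Real.norm_of_nonneg (by positivity)]
        rw [b1, a2]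
        exact (norm_sum_le _ _).trans (sum_le_sum fun g _ => norm_sum_le _ _)
      have a4 : ∑ g ∈ range H, ∑ g' ∈ range H,
          ‖∑ m ∈ range M, F (m + g) * (starRingEnd ℂ) (F (m + g'))‖ ≤
          ∑ g ∈ range H, ∑ g' ∈ range H, ((if g = g' then (M : ℝ) else 0) + δ ^ 2 / 8 * M) := by
        refine sum_le_sum fun g hg => sum_le_sum fun g' hg' => ?_
        by_cases h3 : g = g'
        · rw [if_pos h3]
          have b1 : ‖∑ m ∈ range M, F (m + g) * (starRingEnd ℂ) (F (m + g'))‖ ≤ M := by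
            refine (norm_sum_le _ _).trans ?_
            have b2 : ∀ m ∈ range M, ‖F (m + g) * (starRingEnd ℂ) (F (m + g'))‖ = 1 := by
              intro m _
              rw [norm_mul, RCLike.norm_conj, hFn, hFn, one_mul]
            rw [sum_congr rfl b2]
            simp
          have b2 : 0 ≤ δ ^ 2 / 8 * M := by positivity
          linarith
        · rw [if_neg h3, zero_add]
          exact hoff g hg g' hg' h3
      have a5 : ∑ g ∈ range H, ∑ g' ∈ range H, ((if g = g' then (M : ℝ) else 0) + δ ^ 2 / 8 * M) =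
          H * M + H ^ 2 * (δ ^ 2 / 8 * M) := by
        have b1 : ∀ g ∈ range H, ∑ g' ∈ range H, ((if g = g' then (M : ℝ) else 0) + δ ^ 2 / 8 * M) =
            M + H * (δ ^ 2 / 8 * M) := by
          intro g hg
          rw [sum_add_distrib, sum_ite_eq, if_pos hg, sum_const, card_range, nsmul_eq_mul]
        rw [sum_congr rfl b1, sum_const, card_range, nsmul_eq_mul]
        ring
      have a6 : (H : ℝ) * M ≤ H ^ 2 * (δ ^ 2 / 8 * M) := by
        have b1 : (8 : ℝ) / δ ^ 2 ≤ H := by linarith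
        rw [div_le_iff₀ (by positivity)] at b1
        have b2 : (1 : ℝ) ≤ H * (δ ^ 2 / 8) := by linarith
        calc (H : ℝ) * M = (H * M) * 1 := by ring
          _ ≤ (H * M) * (H * (δ ^ 2 / 8)) := by gcongr
          _ = H ^ 2 * (δ ^ 2 / 8 * M) := by ring
      calc ‖∑ m ∈ range M, Z m‖ ^ 2 ≤ M * ∑ m ∈ range M, ‖Z m‖ ^ 2 := a1
        _ ≤ M * (H * M + H ^ 2 * (δ ^ 2 / 8 * M)) := by
            refine mul_le_mul_of_nonneg_left ?_ hMR
            rw [← a5]
            exact a3.trans a4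
        _ ≤ M * (H ^ 2 * (δ ^ 2 / 8 * M) + H ^ 2 * (δ ^ 2 / 8 * M)) := by gcongr
        _ = (M : ℝ) ^ 2 * (H ^ 2 * (δ ^ 2 / 4)) := by ring
    have h3 : ‖∑ m ∈ range M, Z m‖ ≤ M * H * (δ / 2) := by
      refine le_of_sq_le_sq ?_ (by positivity)
      calc ‖∑ m ∈ range M, Z m‖ ^ 2 ≤ (M : ℝ) ^ 2 * (H ^ 2 * (δ ^ 2 / 4)) := h2
        _ = (M * H * (δ / 2)) ^ 2 := by ring
    have h4 : ‖(H : ℂ) * S‖ ≤ 2 * H * H + M * H * (δ / 2) := by
      have : (H : ℂ) * S = ((H : ℂ) * S - ∑ m ∈ range M, Z m) + ∑ m ∈ range M, Z m := by ring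
      rw [this]
      exact (norm_add_le _ _).trans (add_le_add h1 h3)
    rw [norm_mul, Complex.norm_natCast] at h4
    have h5 : (H : ℝ) * ‖S‖ ≤ H * (δ * M) := by nlinarith
    exact le_of_mul_le_mul_left h5 (by linarith)

end Pool.Agent.K7.H63.LN
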